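import Mathlib

/-!
# Rank one perturbations of matrices with known left and right kernel vectors
-/

namespace Pool.Agent.V11208.FT

open Matrix

variable {R : Type*} [CommRing R] {N : Type*} [Fintype N] [DecidableEq N]

/-- The determinant is affine along rank one perturbations. -/
theorem det_add_rank_one (M : Matrix N N R) (q : N → R) :
    ∃ psi : (N → R) →ₗ[R] R, ∀ p, (M + vecMulVec p q).det = M.det + psi p := by
  classical
  let X : Matrix (N ⊕ Unit) (N ⊕ Unit) R :=
    fromBlocks M 0 (Matrix.of fun _ j => q j) 1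
  let L : (N → R) →ₗ[R] (N ⊕ Unit → R) :=
    { toFun := fun p => Sum.elim (-p) 0
      map_add' := by
        intro x y; funext k; rcases k with k | k <;> simp [add_comm]
      map_smul' := by
        intro c x; funext k; rcases k with k | k <;> simp }
  refine ⟨(LinearMap.proj (Sum.inr ())).comp ((cramer X).comp L), fun p => ?_⟩
  have h1 : (fromBlocks M (Matrix.of fun i (_ : Unit) => -p i)
      (Matrix.of fun (_ : Unit) j => q j) 1).det = (M + vecMulVec p q).det := by
    rw [det_fromBlocks_one₂₂]
    congr 1
    ext i j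
    simp [Matrix.mul_apply, vecMulVec_apply]
  have h2 : (fromBlocks M (Matrix.of fun i (_ : Unit) => -p i)
      (Matrix.of fun (_ : Unit) j => q j) 1)
      = X.updateCol (Sum.inr ()) (Sum.elim (fun _ => (0:R)) (fun _ => (1:R)) + L p) := by
    ext i j
    rcases i with i | i <;> rcases j with j | j <;> simp [X, L, updateCol_apply]
  have h3 : X.updateCol (Sum.inr ()) (Sum.elim (fun _ => (0:R)) (fun _ => (1:R))) = X := by
    ext i j
    rcases i with i | i <;> rcases j with j | j <;> simp [X, updateCol_apply]
  rw [← h1, h2, det_updateCol_add, h3]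
  simp only [LinearMap.coe_comp, LinearMap.coe_proj, Function.comp_apply, Function.eval,
    cramer_apply]
  congr 1
  simp [X, det_fromBlocks_zero₁₂]

variable [IsDomain R]

theorem det_zero_of_left (M : Matrix N N R) (u : N → R) (hu : u ≠ 0) (h : u ᵥ* M = 0) :
    M.det = 0 := exists_vecMul_eq_zero_iff.mp ⟨u, hu, h⟩

theorem det_rank_one_left (M : Matrix N N R) (u q : N → R) (o : N) (ho : u o = 1)
    (h : u ᵥ* M = 0) (p : N → R) :
    (M + vecMulVec p q).det = (u ⬝ᵥ p) * (M + vecMulVec (Pi.single o 1) q).det := by
  have hu : u ≠ 0 := by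
    intro h0; rw [h0] at ho; simp at ho
  have h0 : M.det = 0 := det_zero_of_left M u hu h
  obtain ⟨psi, hpsi⟩ := det_add_rank_one M q
  have key : ∀ p, u ⬝ᵥ p = 0 → psi p = 0 := by
    intro p hp
    have : (M + vecMulVec p q).det = 0 := by
      apply det_zero_of_left _ u hu
      rw [vecMul_add, h, vecMul_vecMulVec, hp]
      simp
    rw [hpsi, h0, zero_add] at this
    exact this
  have h1 : psi (p - (u ⬝ᵥ p) • Pi.single o 1) = 0 := by
    apply key
    rw [dotProduct_sub, dotProduct_smul, dotProduct_single, ho]
    simp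
  rw [map_sub, map_smul, sub_eq_zero] at h1
  rw [hpsi, hpsi, h0, zero_add, zero_add, h1, smul_eq_mul]

/-- The general rank one perturbation. -/
theorem det_rank_one (M : Matrix N N R) (u q p : N → R) (o : N) (ho : u o = 1)
    (h : u ᵥ* M = 0) (h' : M *ᵥ (fun _ => 1) = 0) :
    (M + vecMulVec p q).det =
      (u ⬝ᵥ p) * (∑ i, q i) * (M + vecMulVec (Pi.single o 1) (Pi.single o 1)).det := by
  rw [det_rank_one_left M u q o ho h p, mul_assoc]
  congr 1
  have h2 := det_rank_one_left Mᵀ (fun _ => 1) (Pi.single o 1) o rfl
    (by rw [vecMul_transpose]; exact h') q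
  rw [← det_transpose, transpose_add, transpose_vecMulVec, h2]
  congr 1
  · simp [dotProduct]
  · rw [← det_transpose, transpose_add, transpose_vecMulVec, transpose_transpose]

end Pool.Agent.V11208.FT
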