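import Pool.Agent.V11208.FT.Defs
import Pool.Agent.V11208.FT.Rank

/-!
# The Conway function of a braid word from its Burau matrix
-/

namespace Pool.Agent.V11208.FT

open Matrix

section

variable {R : Type*} [CommRing R] (s : Rˣ) {n : ℕ}

/-- column vector -/
def pv (i : Fin n) : Fin (n + 1) → R :=
  Pi.single i.succ 1 - Pi.single i.castSucc ((s : R) ^ 2)

/-- row vector -/
def qv (R : Type*) [CommRing R] {n : ℕ} (i : Fin n) : Fin (n + 1) → R :=
  Pi.single i.castSucc 1 - Pi.single i.succ 1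

/-- coefficient -/
def yv (e : Bool) : R := if e then 1 else ((s⁻¹ : Rˣ) : R) ^ 2

/-- The Burau matrix of a letter. -/
def bur (l : Letter n) : Matrix (Fin (n + 1)) (Fin (n + 1)) R :=
  1 + yv s l.2 • vecMulVec (pv s l.1) (qv R l.1)

/-- The Burau matrix of a word. -/
def Bur : Word n → Matrix (Fin (n + 1)) (Fin (n + 1)) R
  | [] => 1
  | l :: w => bur s l * Bur w

theorem Bur_append (u v : Word n) : Bur s (u ++ v) = Bur s u * Bur s v := by
  induction u with
  | nil => simp [Bur]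
  | cons l u ih => simp [Bur, ih, Matrix.mul_assoc]

theorem qp (i j : Fin n) : qv R i ⬝ᵥ pv s j =
    (if (i : ℕ) = j + 1 then 1 else 0) - (if i = j then 1 + (s : R) ^ 2 else 0)
      + (if (i : ℕ) + 1 = j then (s : R) ^ 2 else 0) := by
  unfold qv pv
  rw [sub_dotProduct, single_dotProduct, single_dotProduct]
  simp only [Pi.sub_apply, Pi.single_apply, Fin.ext_iff, Fin.val_castSucc, Fin.val_succ, one_mul]
  by_cases h1 : (i : ℕ) = j + 1
  · have h2 : ¬ ((i : ℕ) = j) := by omega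
    have h3 : ¬ ((i : ℕ) + 1 = j) := by omega
    simp [h1]
  · by_cases h2 : (i : ℕ) = j
    · simp [h2]; ring
    · by_cases h3 : (i : ℕ) + 1 = j
      · have h4 : ¬ ((i : ℕ) + 1 = j + 1) := by omega
        have h5 : ¬ ((i : ℕ) = j + 1) := by omega
        simp [h2, h3, h5]
      · simp [h1, h2, h3]

/-- the rank one matrix of a generator -/
def dm (i : Fin n) : Matrix (Fin (n + 1)) (Fin (n + 1)) R := vecMulVec (pv s i) (qv R i)

theorem bur_eq (l : Letter n) : bur s l = 1 + yv s l.2 • dm s l.1 := rfl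

theorem dm_mul (i j : Fin n) : dm s i * dm s j =
    (qv R i ⬝ᵥ pv s j) • vecMulVec (pv s i) (qv R j) := by
  unfold dm
  rw [vecMulVec_mul_vecMulVec]
  ext a b
  simp [vecMulVec_apply]
  ring

theorem dm_sq (i : Fin n) : dm s i * dm s i = (-(1 + (s : R) ^ 2)) • dm s i := by
  rw [dm_mul, qp]
  simp [dm]

theorem dm_far (i j : Fin n) (h : (i : ℕ) + 1 < j) : dm s i * dm s j = 0 := by
  rw [dm_mul, qp, if_neg (by omega), if_neg (by intro h'; rw [h'] at h; omega),
    if_neg (by omega)]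
  simp

theorem dm_far' (i j : Fin n) (h : (i : ℕ) + 1 < j) : dm s j * dm s i = 0 := by
  rw [dm_mul, qp, if_neg (by omega), if_neg (by intro h'; rw [h'] at h; omega),
    if_neg (by omega)]
  simp

theorem dm_iji (i j : Fin n) (h : (i : ℕ) + 1 = j) :
    dm s i * dm s j * dm s i = ((s : R) ^ 2) • dm s i := by
  have h1 : qv R i ⬝ᵥ pv s j = (s : R) ^ 2 := by
    rw [qp, if_neg (by omega), if_neg (by intro h'; rw [h'] at h; omega), if_pos h]; ring
  have h2 : qv R j ⬝ᵥ pv s i = 1 := by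
    rw [qp, if_pos (by omega), if_neg (by intro h'; rw [h'] at h; omega),
      if_neg (by omega)]; ring
  rw [dm_mul, h1, Matrix.smul_mul]
  congr 1
  unfold dm
  rw [vecMulVec_mul_vecMulVec, h2, one_smul]

theorem dm_jij (i j : Fin n) (h : (i : ℕ) + 1 = j) :
    dm s j * dm s i * dm s j = ((s : R) ^ 2) • dm s j := by
  have h1 : qv R i ⬝ᵥ pv s j = (s : R) ^ 2 := by
    rw [qp, if_neg (by omega), if_neg (by intro h'; rw [h'] at h; omega), if_pos h]; ring
  have h2 : qv R j ⬝ᵥ pv s i = 1 := by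
    rw [qp, if_pos (by omega), if_neg (by intro h'; rw [h'] at h; omega),
      if_neg (by omega)]; ring
  rw [dm_mul, h2, one_smul]
  unfold dm
  rw [vecMulVec_mul_vecMulVec, h1]
  ext a b
  simp [vecMulVec_apply]
  ring

theorem yv_rel (e : Bool) : yv s e + yv s (!e) - (1 + (s : R) ^ 2) * (yv s e * yv s (!e)) = 0 := by
  have h : ((s : R) ^ 2) * ((s⁻¹ : Rˣ) : R) ^ 2 = 1 := by
    rw [← mul_pow, Units.mul_inv, one_pow]
  cases e <;> simp only [yv, Bool.not_true, Bool.not_false, if_true, if_false,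
    Bool.false_eq_true] <;> linear_combination (-1 : R) * h

theorem bur_cancel (i : Fin n) (e : Bool) : bur s (i, e) * bur s (i, !e) = 1 := by
  rw [bur_eq, bur_eq]
  simp only [Matrix.add_mul, Matrix.mul_add, Matrix.one_mul, Matrix.mul_one, Matrix.smul_mul,
    Matrix.mul_smul, dm_sq]
  rw [add_assoc, add_eq_left]
  have := yv_rel s e
  have h2 : yv s e • dm s i + yv s (!e) • (dm s i + yv s e • -(1 + (s : R) ^ 2) • dm s i)
      = (yv s e + yv s (!e) - (1 + (s : R) ^ 2) * (yv s e * yv s (!e))) • dm s i := by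
    module
  rw [h2, this, zero_smul]

theorem bur_far (i j : Fin n) (e f : Bool) (h : (i : ℕ) + 1 < j) :
    bur s (i, e) * bur s (j, f) = bur s (j, f) * bur s (i, e) := by
  rw [bur_eq, bur_eq]
  simp only [Matrix.add_mul, Matrix.mul_add, Matrix.one_mul, Matrix.mul_one, Matrix.smul_mul,
    Matrix.mul_smul, dm_far s i j h, dm_far' s i j h, smul_zero, add_zero]
  abel

theorem bur_braid (i j : Fin n) (h : (i : ℕ) + 1 = j) :
    bur s (i, true) * (bur s (j, true) * bur s (i, true)) =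
      bur s (j, true) * (bur s (i, true) * bur s (j, true)) := by
  have hy : yv s true = 1 := rfl
  rw [bur_eq, bur_eq]
  simp only [hy, one_smul]
  have h1 := dm_iji s i j h
  have h2 := dm_jij s i j h
  have h3 := dm_sq s i
  have h4 := dm_sq s j
  have e1 : (1 + dm s i) * ((1 + dm s j) * (1 + dm s i)) =
      1 + dm s i + dm s i + dm s j + dm s i * dm s i + dm s i * dm s j + dm s j * dm s i
        + dm s i * dm s j * dm s i := by noncomm_ring
  have e2 : (1 + dm s j) * ((1 + dm s i) * (1 + dm s j)) =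
      1 + dm s j + dm s j + dm s i + dm s j * dm s j + dm s j * dm s i + dm s i * dm s j
        + dm s j * dm s i * dm s j := by noncomm_ring
  rw [e1, e2, h1, h2, h3, h4]
  module

/-- left fixed vector -/
def uv (n : ℕ) : Fin (n + 1) → R := fun a => (s : R) ^ (2 * (a : ℕ))

theorem uv_pv (i : Fin n) : uv s n ⬝ᵥ pv s i = 0 := by
  unfold pv uv
  rw [dotProduct_sub, dotProduct_single, dotProduct_single]
  simp only [Fin.val_succ, Fin.val_castSucc]
  ring

theorem sum_qv (i : Fin n) : ∑ a, qv R i a = 0 := by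
  simp [qv, Finset.sum_sub_distrib]

theorem uv_bur (l : Letter n) : uv s n ᵥ* bur s l = uv s n := by
  rw [bur, vecMul_add, vecMul_one, vecMul_smul, vecMul_vecMulVec, uv_pv]
  simp

theorem bur_one (l : Letter n) : bur s l *ᵥ (fun _ => 1) = fun _ => 1 := by
  rw [bur, add_mulVec, one_mulVec, smul_mulVec, vecMulVec_mulVec]
  have : qv R l.1 ⬝ᵥ (fun _ => (1 : R)) = 0 := by
    rw [dotProduct]; simp [sum_qv]
  rw [this]
  simp

theorem uv_Bur (w : Word n) : uv s n ᵥ* Bur s w = uv s n := by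
  induction w with
  | nil => simp [Bur]
  | cons l w ih => rw [Bur, ← vecMul_vecMul, uv_bur, ih]

theorem Bur_one (w : Word n) : Bur s w *ᵥ (fun _ => 1) = fun _ => 1 := by
  induction w with
  | nil => simp [Bur]
  | cons l w ih => rw [Bur, ← mulVec_mulVec, ih, bur_one]

/-- matrix unit in the corner -/
def e00 (R : Type*) [CommRing R] (n : ℕ) : Matrix (Fin (n + 1)) (Fin (n + 1)) R :=
  vecMulVec (Pi.single 0 1) (Pi.single 0 1)

/-- the determinant -/
def cc (w : Word n) : R := (1 - Bur s w + e00 R n).det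

/-- The exponent sum. -/
def expo : Word n → ℤ
  | [] => 0
  | l :: w => (if l.2 then 1 else -1) + expo w

theorem expo_append (u v : Word n) : expo (u ++ v) = expo u + expo v := by
  induction u with
  | nil => simp [expo]
  | cons l u ih => simp [expo, ih, add_assoc]

/-- The Conway function. -/
def nab (w : Word n) : R := cc s w * ((s ^ ((n : ℤ) - expo w) : Rˣ) : R)

theorem det_e00 [IsDomain R] (w : Word n) (p q : Fin (n + 1) → R) :
    (1 - Bur s w + vecMulVec p q).det = (uv s n ⬝ᵥ p) * (∑ i, q i) * cc s w := by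
  unfold cc e00
  apply det_rank_one _ (uv s n) q p 0
  · simp [uv]
  · rw [vecMul_sub, vecMul_one, uv_Bur, sub_self]
  · rw [sub_mulVec, one_mulVec, Bur_one, sub_self]

theorem isUnit_bur (l : Letter n) : IsUnit (bur s l) := by
  refine ⟨⟨bur s (l.1, l.2), bur s (l.1, !l.2), bur_cancel s l.1 l.2, ?_⟩, rfl⟩
  have := bur_cancel s l.1 (!l.2)
  rwa [Bool.not_not] at this

theorem isUnit_Bur (w : Word n) : IsUnit (Bur s w) := by
  induction w with
  | nil => exact isUnit_one
  | cons l w ih => exact (isUnit_bur s l).mul ih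

theorem cc_conj [IsDomain R] (u v : Word n) : cc s (u ++ v) = cc s (v ++ u) := by
  obtain ⟨U, hU⟩ := isUnit_Bur s u
  have h1 : Bur s (u ++ v) = (U : Matrix _ _ R) * Bur s (v ++ u)
      * ((U⁻¹ : (Matrix (Fin (n + 1)) (Fin (n + 1)) R)ˣ) : Matrix _ _ R) := by
    rw [Bur_append, Bur_append, ← hU, Matrix.mul_assoc, Matrix.mul_assoc, Units.mul_inv,
      Matrix.mul_one]
  have h2 : (1 - Bur s (u ++ v) + e00 R n) =
      (U : Matrix _ _ R) * (1 - Bur s (v ++ u)
        + ((U⁻¹ : (Matrix (Fin (n + 1)) (Fin (n + 1)) R)ˣ) : Matrix _ _ R) * e00 R n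
          * (U : Matrix _ _ R))
      * ((U⁻¹ : (Matrix (Fin (n + 1)) (Fin (n + 1)) R)ˣ) : Matrix _ _ R) := by
    rw [h1, Matrix.mul_add, Matrix.mul_sub, Matrix.add_mul, Matrix.sub_mul, Matrix.mul_one,
      Units.mul_inv]
    congr 1
    rw [← Matrix.mul_assoc, ← Matrix.mul_assoc, Units.mul_inv, Matrix.one_mul, Matrix.mul_assoc,
      Units.mul_inv, Matrix.mul_one]
  have h3 : ((U⁻¹ : (Matrix (Fin (n + 1)) (Fin (n + 1)) R)ˣ) : Matrix _ _ R) * e00 R n
          * (U : Matrix _ _ R) =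
      vecMulVec (((U⁻¹ : (Matrix (Fin (n + 1)) (Fin (n + 1)) R)ˣ) : Matrix _ _ R)
        *ᵥ (Pi.single (0 : Fin (n + 1)) 1)) ((Pi.single (0 : Fin (n + 1)) 1) ᵥ* (U : Matrix _ _ R)) := by
    rw [e00, mul_vecMulVec, vecMulVec_mul]
  have hu : uv s n ᵥ* ((U⁻¹ : (Matrix (Fin (n + 1)) (Fin (n + 1)) R)ˣ) : Matrix _ _ R)
      = uv s n := by
    have := uv_Bur s u
    rw [← hU] at this
    conv_lhs => rw [← this]
    rw [vecMul_vecMul, Units.mul_inv, vecMul_one]
  have hone : (U : Matrix (Fin (n + 1)) (Fin (n + 1)) R) *ᵥ (fun _ => (1 : R)) = fun _ => 1 := by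
    rw [hU]; exact Bur_one s u
  rw [cc, h2, det_mul, det_mul, mul_comm, ← mul_assoc, ← det_mul, Units.inv_mul, det_one,
    one_mul, h3, det_e00]
  have a1 : uv s n ⬝ᵥ (((U⁻¹ : (Matrix (Fin (n + 1)) (Fin (n + 1)) R)ˣ) : Matrix _ _ R)
        *ᵥ (Pi.single (0 : Fin (n + 1)) 1)) = 1 := by
    rw [dotProduct_mulVec, hu, dotProduct_single]
    simp [uv]
  have a2 : ∑ i, ((Pi.single (0 : Fin (n + 1)) 1) ᵥ* (U : Matrix (Fin (n + 1)) (Fin (n + 1)) R)) i = 1 := by
    have : ∑ i, ((Pi.single (0 : Fin (n + 1)) 1) ᵥ* (U : Matrix (Fin (n + 1)) (Fin (n + 1)) R)) i =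
        ((Pi.single (0 : Fin (n + 1)) 1) ᵥ* (U : Matrix (Fin (n + 1)) (Fin (n + 1)) R)) ⬝ᵥ (fun _ => 1) := by
      simp [dotProduct]
    rw [this, ← dotProduct_mulVec, hone]
    simp [dotProduct]
  rw [a1, a2, one_mul, one_mul]

theorem nab_conj [IsDomain R] (u v : Word n) : nab s (u ++ v) = nab s (v ++ u) := by
  rw [nab, nab, cc_conj, expo_append, expo_append, add_comm (expo u)]

/-- The skein relation. -/
theorem cc_skein (u v : Word n) (i : Fin n) :
    cc s (u ++ (i, true) :: v) - (s : R) ^ 2 * cc s (u ++ (i, false) :: v)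
      = (1 - (s : R) ^ 2) * cc s (u ++ v) := by
  have key : ∀ e, (1 - Bur s (u ++ (i, e) :: v) + e00 R n) = (1 - Bur s (u ++ v) + e00 R n)
      + vecMulVec (yv s e • (-(Bur s u *ᵥ pv s i))) (qv R i ᵥ* Bur s v) := by
    intro e
    rw [Bur_append, Bur_append, Bur, bur, Matrix.add_mul, Matrix.one_mul, Matrix.mul_add,
      Matrix.smul_mul, Matrix.mul_smul, vecMulVec_mul, mul_vecMulVec, smul_vecMulVec,
      neg_vecMulVec, smul_neg]
    abel
  obtain ⟨psi, hpsi⟩ := det_add_rank_one (1 - Bur s (u ++ v) + e00 R n) (qv R i ᵥ* Bur s v)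
  have h : ((s : R) ^ 2) * ((s⁻¹ : Rˣ) : R) ^ 2 = 1 := by
    rw [← mul_pow, Units.mul_inv, one_pow]
  unfold cc
  rw [key true, key false, hpsi, hpsi, map_smul, map_smul]
  simp only [yv, if_true, Bool.false_eq_true, if_false, smul_eq_mul]
  linear_combination (-1 : R) * (psi (-(Bur s u *ᵥ pv s i))) * h

theorem nab_skein (u v : Word n) (i : Fin n) :
    nab s (u ++ (i, true) :: v) - nab s (u ++ (i, false) :: v)
      = (((s⁻¹ : Rˣ) : R) - s) * nab s (u ++ v) := by
  have h := cc_skein s u v i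
  unfold nab
  have e1 : (n : ℤ) - expo (u ++ (i, true) :: v) = ((n : ℤ) - expo (u ++ v)) - 1 := by
    rw [expo_append, expo_append, expo]; simp only [if_true]; ring
  have e2 : (n : ℤ) - expo (u ++ (i, false) :: v) = ((n : ℤ) - expo (u ++ v)) + 1 := by
    rw [expo_append, expo_append, expo]; simp only [Bool.false_eq_true, if_false]; ring
  rw [e1, e2, _root_.zpow_sub_one, _root_.zpow_add_one, Units.val_mul, Units.val_mul]
  have h' : (s : R) * ((s⁻¹ : Rˣ) : R) = 1 := Units.mul_inv s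
  generalize (((s ^ ((n : ℤ) - expo (u ++ v)) : Rˣ)) : R) = z
  linear_combination (z * ((s⁻¹ : Rˣ) : R)) * h + (- cc s (u ++ v) * z * s
    + (s : R) * z * cc s (u ++ (i, false) :: v)) * h'

end

end Pool.Agent.V11208.FT
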