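import Mathlib

/-!
# The algebraic core

A trace-like functional on an algebra kills the derivatives of a certain element of degree five.
-/

namespace Pool.Agent.V11208.FT

section core

variable {A : Type*} [Ring A] [Algebra ℂ A]

/-- the commutator -/
def br (x y : A) : A := x * y - y * x

/-- the element of degree five -/
def theElt (a b c d e : A) : A :=
  a * br b c * br d e + a * c * br b (br d e) - c * br e a * br b d

variable (F : A →ₗ[ℂ] ℂ) (hT : ∀ x y, F (x * y) = F (y * x)) (a b c d e R : A)
  (hR : ∀ x y, F (x * R * y) = 0) (hbe : ∀ x y, F (x * br b e * y) = 0)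

include hT hR

theorem core_a : F ((1 - R) * br b c * br d e + (1 - R) * c * br b (br d e)
    - c * br e (1 - R) * br b d) = 0 := by
  have h : (1 - R) * br b c * br d e + (1 - R) * c * br b (br d e) - c * br e (1 - R) * br b d
      = (b * (c * br d e) - (c * br d e) * b) - 1 * R * (br b c * br d e)
        - 1 * R * (c * br b (br d e)) + (c * e) * R * br b d - c * R * (e * br b d) := by
    simp only [br]; noncomm_ring
  rw [h]
  simp only [map_sub, map_add, hR, hT b]
  ring

include hbe in
theorem core_c : F (a * br b (1 - R) * br d e + a * (1 - R) * br b (br d e)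
    - (1 - R) * br e a * br b d) = 0 := by
  have h : a * br b (1 - R) * br d e + a * (1 - R) * br b (br d e) - (1 - R) * br e a * br b d
      = ((a * b * d) * e - e * (a * b * d)) - a * br b e * d
        + (e * (a * d * b) - (a * d * b) * e) + (a * d) * br b e * 1
        - (a * b) * R * br d e + a * R * (b * br d e) - a * R * br b (br d e)
        + 1 * R * (br e a * br b d) := by
    simp only [br]; noncomm_ring
  rw [h]
  simp only [map_sub, map_add, hR, hbe, hT e]
  ring

omit hT in
theorem core_b : F (a * br (1 - R) c * br d e + a * c * br (1 - R) (br d e)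
    - c * br e a * br (1 - R) d) = 0 := by
  have h : a * br (1 - R) c * br d e + a * c * br (1 - R) (br d e)
    - c * br e a * br (1 - R) d = - (a * R * (c * br d e)) + (a * c) * R * br d e
      - (a * c) * R * br d e + (a * c * br d e) * R * 1 + (c * br e a) * R * d
      - (c * br e a * d) * R * 1 := by
    simp only [br]; noncomm_ring
  rw [h]
  simp only [map_sub, map_add, map_neg, hR]
  ring

omit hT in
theorem core_d : F (a * br b c * br (1 - R) e + a * c * br b (br (1 - R) e)
    - c * br e a * br b (1 - R)) = 0 := by
  have h : a * br b c * br (1 - R) e + a * c * br b (br (1 - R) e)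
    - c * br e a * br b (1 - R) = - ((a * br b c) * R * e) + (a * br b c * e) * R * 1
      - (a * c * b) * R * e + (a * c * b * e) * R * 1 + (a * c) * R * (e * b)
      - (a * c * e) * R * b + (c * br e a * b) * R * 1 - (c * br e a) * R * b := by
    simp only [br]; noncomm_ring
  rw [h]
  simp only [map_sub, map_add, map_neg, hR]
  ring

omit hT in
theorem core_e : F (a * br b c * br d (1 - R) + a * c * br b (br d (1 - R))
    - c * br (1 - R) a * br b d) = 0 := by
  have h : a * br b c * br d (1 - R) + a * c * br b (br d (1 - R))
    - c * br (1 - R) a * br b d = - ((a * br b c * d) * R * 1) + (a * br b c) * R * d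
      - (a * c * b * d) * R * 1 + (a * c * b) * R * d + (a * c * d) * R * b
      - (a * c) * R * (d * b) + c * R * (a * br b d) - (c * a) * R * br b d := by
    simp only [br]; noncomm_ring
  rw [h]
  simp only [map_sub, map_add, map_neg, hR]
  ring

end core

section deriv

variable {A : Type*} [Ring A] [Algebra ℂ A] (D : A →ₗ[ℂ] A)
  (hD : ∀ x y, D (x * y) = D x * y + x * D y)

include hD

theorem D_br (x y : A) : D (br x y) = br (D x) y + br x (D y) := by
  simp only [br, map_sub, hD]
  abel

theorem D_theElt (a b c d e : A) : D (theElt a b c d e) =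
    (D a * br b c * br d e + D a * c * br b (br d e) - c * br e (D a) * br b d)
    + (a * br (D b) c * br d e + a * c * br (D b) (br d e) - c * br e a * br (D b) d)
    + (a * br b (D c) * br d e + a * D c * br b (br d e) - D c * br e a * br b d)
    + (a * br b c * br (D d) e + a * c * br b (br (D d) e) - c * br e a * br b (D d))
    + (a * br b c * br d (D e) + a * c * br b (br d (D e)) - c * br (D e) a * br b d) := by
  simp only [theElt, map_sub, map_add, hD, D_br D hD]
  simp only [br]
  noncomm_ring

theorem D_pow (X : A) (hX : D X = 1 + X) (k : ℕ) :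
    D (X ^ (k + 1)) = (k + 1 : ℂ) • (X ^ k + X ^ (k + 1)) := by
  induction k with
  | zero => simp [hX]
  | succ k ih =>
    rw [pow_succ, hD, ih, hX]
    simp only [smul_mul_assoc]
    rw [add_mul, ← pow_succ, ← pow_succ, mul_add, mul_one, ← pow_succ]
    push_cast
    module

/-- the truncated logarithm of `1 + X` -/
noncomputable def lg (M : ℕ) (X : A) : A :=
  ∑ k ∈ Finset.range M, ((-1 : ℂ) ^ k / (k + 1)) • X ^ (k + 1)

theorem D_lg (X : A) (hX : D X = 1 + X) (M : ℕ) : D (lg M X) = 1 - (-X) ^ M := by
  induction M with
  | zero => simp [lg]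
  | succ M ih =>
    have h1 : lg (M + 1) X = lg M X + ((-1 : ℂ) ^ M / (M + 1)) • X ^ (M + 1) := by
      rw [lg, Finset.sum_range_succ]; rfl
    rw [h1, map_add, ih, map_smul, D_pow D hD X hX, smul_smul]
    have h2 : ((-1 : ℂ) ^ M / (M + 1)) * (M + 1) = (-1) ^ M := by
      have : (M + 1 : ℂ) ≠ 0 := by exact_mod_cast Nat.succ_ne_zero M
      field_simp
    rw [h2]
    have h3 : ∀ j : ℕ, (-X) ^ j = ((-1 : ℂ) ^ j) • X ^ j := by
      intro j
      rw [← smul_pow]
      simp
    rw [h3, h3]
    rw [pow_succ (-1 : ℂ)]
    module

theorem D_lg_zero (X : A) (hX : D X = 0) (M : ℕ) : D (lg M X) = 0 := by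
  have h : ∀ k, D (X ^ (k + 1)) = 0 := by
    intro k
    induction k with
    | zero => simp [hX]
    | succ k ih => rw [pow_succ, hD, ih, hX]; simp
  rw [lg, map_sum]
  apply Finset.sum_eq_zero
  intro k _
  rw [map_smul, h, smul_zero]

end deriv

end Pool.Agent.V11208.FT
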