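import Mathlib

/-!
# Ordered oriented links as labelled closed braids, and their finite type invariants

Links are Markov classes of closures of braid words (theorems of Alexander and Markov), singular
links are closures of singular braid words (Birman).
-/

namespace Pool.Agent.V11208.FT

/-- A crossing `σ_i^{±1}` of a braid word on `n + 1` strands; `true` is the positive crossing. -/
abbrev Letter (n : ℕ) : Type := Fin n × Bool

/-- Braid words on `n + 1` strands. -/
abbrev Word (n : ℕ) : Type := List (Letter n)

/-- The transposition of the positions `i` and `i + 1`. -/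
def adj {n : ℕ} (i : Fin n) : Equiv.Perm (Fin (n + 1)) := Equiv.swap i.castSucc i.succ

/-- The permutation of a braid word: it sends the bottom position of a strand to its top
position. -/
def perm {n : ℕ} : Word n → Equiv.Perm (Fin (n + 1))
  | [] => 1
  | l :: w => adj l.1 * perm w

/-- `ell` numbers the components of the closure of `w`: two positions have the same label exactly
when they lie on the same component, and every one of the `m` labels is used. -/
def Closes {n m : ℕ} (w : Word n) (ell : Fin (n + 1) → Fin m) : Prop :=
  Function.Surjective ell ∧ ∀ a b, ell a = ell b ↔ (perm w).SameCycle a b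

/-- A braid word together with a numbering of the components of its closure by `m` labels. -/
structure LBraid (m : ℕ) where
  /-- one less than the number of strands -/
  n : ℕ
  /-- the word -/
  w : Word n
  /-- the label of the strand which starts at a top position -/
  ell : Fin (n + 1) → Fin m
  /-- the labels number the components of the closure -/
  closes : Closes w ell

/-- Braid relations, conjugation (cyclic rotation of the word) and stabilization. -/
inductive Move (m : ℕ) : LBraid m → LBraid m → Prop
  | cancel (n : ℕ) (u v : Word n) (i : Fin n) (e : Bool) (ell : Fin (n + 1) → Fin m)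
      (h : Closes (u ++ (i, e) :: (i, !e) :: v) ell) (h' : Closes (u ++ v) ell) :
      Move m ⟨n, u ++ (i, e) :: (i, !e) :: v, ell, h⟩ ⟨n, u ++ v, ell, h'⟩
  | far (n : ℕ) (u v : Word n) (i j : Fin n) (e f : Bool) (hij : (i : ℕ) + 1 < j)
      (ell : Fin (n + 1) → Fin m)
      (h : Closes (u ++ (i, e) :: (j, f) :: v) ell)
      (h' : Closes (u ++ (j, f) :: (i, e) :: v) ell) :
      Move m ⟨n, u ++ (i, e) :: (j, f) :: v, ell, h⟩ ⟨n, u ++ (j, f) :: (i, e) :: v, ell, h'⟩
  | braid (n : ℕ) (u v : Word n) (i j : Fin n) (hij : (i : ℕ) + 1 = j)
      (ell : Fin (n + 1) → Fin m)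
      (h : Closes (u ++ (i, true) :: (j, true) :: (i, true) :: v) ell)
      (h' : Closes (u ++ (j, true) :: (i, true) :: (j, true) :: v) ell) :
      Move m ⟨n, u ++ (i, true) :: (j, true) :: (i, true) :: v, ell, h⟩
        ⟨n, u ++ (j, true) :: (i, true) :: (j, true) :: v, ell, h'⟩
  | conj (n : ℕ) (u v : Word n) (ell : Fin (n + 1) → Fin m)
      (h : Closes (u ++ v) ell) (h' : Closes (v ++ u) (ell ∘ perm u)) :
      Move m ⟨n, u ++ v, ell, h⟩ ⟨n, v ++ u, ell ∘ perm u, h'⟩
  | stab (n : ℕ) (w : Word n) (e : Bool) (ell : Fin (n + 1) → Fin m)
      (h : Closes w ell)
      (h' : Closes (w.map (fun l => (l.1.castSucc, l.2)) ++ [(Fin.last n, e)])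
        (Fin.snoc (α := fun _ => Fin m) ell (ell (Fin.last n)))) :
      Move m ⟨n, w, ell, h⟩
        ⟨n + 1, w.map (fun l => (l.1.castSucc, l.2)) ++ [(Fin.last n, e)],
          Fin.snoc (α := fun _ => Fin m) ell (ell (Fin.last n)), h'⟩

/-- Isotopy classes of oriented links with `m` numbered components: labelled braid words modulo
the equivalence relation generated by braid relations, conjugation and stabilization. -/
def Link (m : ℕ) : Type := Quot (Move m)

open Classical in
/-- The value of a link invariant on the closure of a braid word with numbered components (and `0`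
if `ell` is not a numbering of the components). -/
noncomputable def ev {m : ℕ} (v : Link m → ℂ) {n : ℕ} (ell : Fin (n + 1) → Fin m)
    (w : Word n) : ℂ :=
  if h : Closes w ell then v (Quot.mk _ ⟨n, w, ell, h⟩) else 0

/-- Letters of a singular braid word on `n + 1` strands: `(i, some e)` is a crossing
and `(i, none)` is a double point of the strands at the positions `i` and `i + 1`. -/
abbrev SWord (n : ℕ) : Type := List (Fin n × Option Bool)

/-- The extension of a function of braid words to singular braid words by the Vassiliev skein
relation `f(double point) = f(positive crossing) - f(negative crossing)`. -/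
def res {n : ℕ} {M : Type*} [Sub M] (f : Word n → M) : SWord n → M
  | [] => f []
  | (i, some e) :: S => res (fun w => f ((i, e) :: w)) S
  | (i, none) :: S =>
      res (fun w => f ((i, true) :: w)) S - res (fun w => f ((i, false) :: w)) S

/-- The number of double points of a singular braid word. -/
def doublePoints {n : ℕ} (S : SWord n) : ℕ := S.countP (fun l => l.2.isNone)

/-- `v` is a finite type invariant of degree at most `N`: its extension to singular links vanishes
on every singular link with more than `N` double points. -/
def FiniteTypeLE {m : ℕ} (N : ℕ) (v : Link m → ℂ) : Prop :=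
  ∀ (n : ℕ) (ell : Fin (n + 1) → Fin m) (S : SWord n), N < doublePoints S → res (ev v ell) S = 0

/-- `v` is a finite type invariant. -/
def FiniteType {m : ℕ} (v : Link m → ℂ) : Prop := ∃ N, FiniteTypeLE N v

/-- The sum of the signs of the crossings between the strands labelled `i` and the strands
labelled `j`, for a braid word read from the top with top labels `ell`. -/
def cross {m : ℕ} (i j : Fin m) {n : ℕ} : Word n → (Fin (n + 1) → Fin m) → ℤ
  | [], _ => 0
  | l :: w, ell =>
      (if (ell l.1.castSucc = i ∧ ell l.1.succ = j) ∨ (ell l.1.castSucc = j ∧ ell l.1.succ = i)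
        then (if l.2 then 1 else -1) else 0) + cross i j w (ell ∘ adj l.1)

end Pool.Agent.V11208.FT
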