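import Pool.Agent.V11208.FT.Markov

/-!
# The invariant: a coefficient of the Conway function
-/

namespace Pool.Agent.V11208.FT

open Matrix

/-- the power series `1 + x` as a unit -/
noncomputable def sU : (PowerSeries ℂ)ˣ :=
  (PowerSeries.isUnit_iff_constantCoeff.mpr (by simp) : IsUnit (1 + PowerSeries.X : PowerSeries ℂ)).unit

theorem sU_val : (sU : PowerSeries ℂ) = 1 + PowerSeries.X := rfl

/-- The Conway power series of a word. -/
noncomputable def conw {n : ℕ} (w : Word n) : PowerSeries ℂ := nab sU w

/-- The power series of a link. -/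
noncomputable def conwL (m : ℕ) : Link m → PowerSeries ℂ :=
  Quot.lift (fun L => conw L.w) (by
    intro a b h
    cases h with
    | cancel n u v i e ell h h' => exact nab_cancel sU u v i e
    | far n u v i j e f hij ell h h' => exact nab_far sU u v i j e f hij
    | braid n u v i j hij ell h h' => exact nab_braid sU u v i j hij
    | conj n u v ell h h' => exact nab_conj sU u v
    | stab n w e ell h h' => exact (nab_stab sU w e).symm)

/-- The invariant: the coefficient of `x ^ 5`. -/
noncomputable def vinv (m : ℕ) (L : Link m) : ℂ := PowerSeries.coeff 5 (conwL m L)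

/-- the permutation of a singular word -/
def sperm {n : ℕ} : SWord n → Equiv.Perm (Fin (n + 1))
  | [] => 1
  | l :: w => adj l.1 * sperm w

theorem res_congr {n : ℕ} {M : Type*} [Sub M] (S : SWord n) (f g : Word n → M)
    (h : ∀ w, perm w = sperm S → f w = g w) : res f S = res g S := by
  induction S generalizing f g with
  | nil => exact h [] rfl
  | cons l S ih =>
    obtain ⟨i, e⟩ := l
    rcases e with _ | e
    · simp only [res]
      rw [ih (fun w => f ((i, true) :: w)) (fun w => g ((i, true) :: w)),
        ih (fun w => f ((i, false) :: w)) (fun w => g ((i, false) :: w))]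
      · intro w hw; apply h; rw [perm, sperm, hw]
      · intro w hw; apply h; rw [perm, sperm, hw]
    · simp only [res]
      apply ih
      intro w hw; apply h; rw [perm, sperm, hw]

theorem res_zero {n : ℕ} (S : SWord n) (f : Word n → ℂ)
    (h : ∀ w, perm w = sperm S → f w = 0) : res f S = 0 := by
  rw [res_congr S f (fun _ => 0) h]
  clear h
  induction S with
  | nil => rfl
  | cons l S ih =>
    obtain ⟨i, e⟩ := l
    rcases e with _ | e <;> simp [res, ih]

theorem res_hom {n : ℕ} {M M' : Type*} [AddCommGroup M] [AddCommGroup M'] (g : M →+ M')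
    (S : SWord n) (f : Word n → M) : res (fun w => g (f w)) S = g (res f S) := by
  induction S generalizing f with
  | nil => rfl
  | cons l S ih =>
    obtain ⟨i, e⟩ := l
    rcases e with _ | e
    · simp only [res]
      rw [ih (fun w => f ((i, true) :: w)), ih (fun w => f ((i, false) :: w)), map_sub]
    · simp only [res]
      exact ih (fun w => f ((i, e) :: w))

/-- the smoothing of a singular word -/
def smooth {n : ℕ} : SWord n → Word n
  | [] => []
  | (i, some e) :: S => (i, e) :: smooth S
  | (_, none) :: S => smooth S

/-- the variable of the Conway polynomial -/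
noncomputable def zz : PowerSeries ℂ := ((sU⁻¹ : (PowerSeries ℂ)ˣ) : PowerSeries ℂ) - sU

theorem conw_skein {n : ℕ} (u v : Word n) (i : Fin n) :
    conw (u ++ (i, true) :: v) - conw (u ++ (i, false) :: v) = zz * conw (u ++ v) :=
  nab_skein sU u v i

theorem res_conw {n : ℕ} (S : SWord n) (u : Word n) :
    res (fun w => conw (u ++ w)) S = zz ^ doublePoints S * conw (u ++ smooth S) := by
  induction S generalizing u with
  | nil => simp [res, doublePoints, smooth]
  | cons l S ih =>
    obtain ⟨i, e⟩ := l
    rcases e with _ | e
    · simp only [res, smooth]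
      have h1 := ih (u ++ [(i, true)])
      have h2 := ih (u ++ [(i, false)])
      simp only [List.append_assoc, List.singleton_append] at h1 h2
      rw [h1, h2, ← mul_sub, conw_skein]
      have : doublePoints ((i, none) :: S) = doublePoints S + 1 := by
        simp [doublePoints]
      rw [this, pow_succ, mul_assoc]
    · simp only [res, smooth]
      have h1 := ih (u ++ [(i, e)])
      simp only [List.append_assoc, List.singleton_append] at h1
      rw [h1]
      have : doublePoints ((i, some e) :: S) = doublePoints S := by
        simp [doublePoints]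
      rw [this]

theorem X_dvd_zz : (PowerSeries.X : PowerSeries ℂ) ∣ zz := by
  rw [PowerSeries.X_dvd_iff, zz, map_sub]
  have h : PowerSeries.constantCoeff (R := ℂ) ((sU⁻¹ : (PowerSeries ℂ)ˣ) : PowerSeries ℂ) = 1 := by
    have h1 : ((sU : PowerSeries ℂ)) * ((sU⁻¹ : (PowerSeries ℂ)ˣ) : PowerSeries ℂ) = 1 :=
      Units.mul_inv _
    have h2 := congrArg (PowerSeries.constantCoeff (R := ℂ)) h1
    rw [map_mul, sU_val] at h2
    simpa using h2
  rw [h, sU_val]
  simp

theorem ev_vinv {n m : ℕ} (ell : Fin (n + 1) → Fin m) (w : Word n) (h : Closes w ell) :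
    ev (vinv m) ell w = PowerSeries.coeff 5 (conw w) := by
  rw [ev, dif_pos h]; rfl

theorem ev_of_not {n m : ℕ} (v : Link m → ℂ) (ell : Fin (n + 1) → Fin m) (w : Word n)
    (h : ¬ Closes w ell) : ev v ell w = 0 := by
  rw [ev, dif_neg h]

theorem closes_iff {n m : ℕ} (ell : Fin (n + 1) → Fin m) (w w' : Word n) (h : perm w = perm w') :
    Closes w ell ↔ Closes w' ell := by
  rw [Closes, Closes, h]

/-- `vinv` is a finite type invariant of degree at most five. -/
theorem finiteType_vinv (m : ℕ) : FiniteTypeLE 5 (vinv m) := by
  intro n ell S hS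
  by_cases hc : ∃ w : Word n, perm w = sperm S ∧ Closes w ell
  · obtain ⟨w₀, hw₀, hc₀⟩ := hc
    have h1 : res (ev (vinv m) ell) S = res (fun w => (PowerSeries.coeff (R := ℂ) 5).toAddMonoidHom
        (conw ([] ++ w))) S := by
      apply res_congr
      intro w hw
      rw [ev_vinv]
      · rfl
      · rw [closes_iff ell w w₀ (hw.trans hw₀.symm)]; exact hc₀
    rw [h1, res_hom, res_conw]
    have h2 : (PowerSeries.X : PowerSeries ℂ) ^ 6 ∣ zz ^ doublePoints S * conw ([] ++ smooth S) := by
      apply dvd_mul_of_dvd_left
      exact (pow_dvd_pow _ hS).trans (pow_dvd_pow_of_dvd X_dvd_zz _)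
    exact PowerSeries.X_pow_dvd_iff.mp h2 5 (by norm_num)
  · apply res_zero
    intro w hw
    apply ev_of_not
    intro hcl
    exact hc ⟨w, hw, hcl⟩

end Pool.Agent.V11208.FT
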