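import Pool.Agent.V11208.FT.Core

/-!
# Linear functionals on monoid algebras
-/

namespace Pool.Agent.V11208.FT

open MonoidAlgebra

section lin

variable {M : Type*} [Monoid M] {V : Type*} [AddCommGroup V] [Module ℂ V]

/-- linear extension -/
noncomputable def lin (f : M → V) : MonoidAlgebra ℂ M →ₗ[ℂ] V where
  toFun P := P.coeff.sum fun u c => c • f u
  map_add' P Q := by
    rw [MonoidAlgebra.coeff_add]
    exact Finsupp.sum_add_index' (by intro u; simp) (by intro u c d; rw [add_smul])
  map_smul' c P := by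
    rw [MonoidAlgebra.coeff_smul, Finsupp.sum_smul_index' (by intro u; simp)]
    simp only [smul_eq_mul, RingHom.id_apply, Finsupp.smul_sum, mul_smul]

theorem lin_of (f : M → V) (u : M) : lin f (MonoidAlgebra.of ℂ M u) = f u := by
  have h : (MonoidAlgebra.of ℂ M u).coeff = Finsupp.single u 1 := by
    simp [MonoidAlgebra.of]
  show (MonoidAlgebra.of ℂ M u).coeff.sum (fun u c => c • f u) = f u
  rw [h, Finsupp.sum_single_index (by simp), one_smul]

theorem lin_comp {V' : Type*} [AddCommGroup V'] [Module ℂ V'] (g : V →ₗ[ℂ] V') (f : M → V)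
    (P : MonoidAlgebra ℂ M) : lin (fun u => g (f u)) P = g (lin f P) := by
  induction P using MonoidAlgebra.induction_on with
  | of m => rw [lin_of, lin_of]
  | add x y hx hy => rw [map_add, map_add, map_add, hx, hy]
  | smul r x hx => rw [map_smul, map_smul, map_smul, hx]

/-- congruence of elements with respect to a functional -/
def Eqv (F : MonoidAlgebra ℂ M →ₗ[ℂ] V) (P Q : MonoidAlgebra ℂ M) : Prop :=
  ∀ x y, F (x * P * y) = F (x * Q * y)

theorem Eqv.refl (F : MonoidAlgebra ℂ M →ₗ[ℂ] V) (P : MonoidAlgebra ℂ M) : Eqv F P P :=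
  fun _ _ => rfl

theorem Eqv.symm {F : MonoidAlgebra ℂ M →ₗ[ℂ] V} {P Q : MonoidAlgebra ℂ M} (h : Eqv F P Q) :
    Eqv F Q P := fun x y => (h x y).symm

theorem Eqv.trans {F : MonoidAlgebra ℂ M →ₗ[ℂ] V} {P Q S : MonoidAlgebra ℂ M} (h : Eqv F P Q)
    (h' : Eqv F Q S) : Eqv F P S := fun x y => (h x y).trans (h' x y)

theorem Eqv.add {F : MonoidAlgebra ℂ M →ₗ[ℂ] V} {P Q P' Q' : MonoidAlgebra ℂ M} (h : Eqv F P Q)
    (h' : Eqv F P' Q') : Eqv F (P + P') (Q + Q') := by
  intro x y
  rw [mul_add, mul_add, add_mul, add_mul, map_add, map_add, h, h']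

theorem Eqv.smul {F : MonoidAlgebra ℂ M →ₗ[ℂ] V} {P Q : MonoidAlgebra ℂ M} (c : ℂ)
    (h : Eqv F P Q) : Eqv F (c • P) (c • Q) := by
  intro x y
  simp only [mul_smul_comm, smul_mul_assoc, map_smul]
  rw [h]

theorem Eqv.sub {F : MonoidAlgebra ℂ M →ₗ[ℂ] V} {P Q P' Q' : MonoidAlgebra ℂ M} (h : Eqv F P Q)
    (h' : Eqv F P' Q') : Eqv F (P - P') (Q - Q') := by
  intro x y
  rw [mul_sub, mul_sub, sub_mul, sub_mul, map_sub, map_sub, h, h']

theorem Eqv.mul {F : MonoidAlgebra ℂ M →ₗ[ℂ] V} {P Q P' Q' : MonoidAlgebra ℂ M} (h : Eqv F P Q)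
    (h' : Eqv F P' Q') : Eqv F (P * P') (Q * Q') := by
  intro x y
  have h1 := h x (P' * y)
  have h2 := h' (x * Q) y
  simp only [mul_assoc] at h1 h2 ⊢
  rw [h1, h2]

theorem Eqv.pow {F : MonoidAlgebra ℂ M →ₗ[ℂ] V} {P Q : MonoidAlgebra ℂ M} (h : Eqv F P Q)
    (k : ℕ) : Eqv F (P ^ k) (Q ^ k) := by
  induction k with
  | zero => rw [pow_zero, pow_zero]; exact Eqv.refl F 1
  | succ k ih => rw [pow_succ, pow_succ]; exact ih.mul h

/-- It is enough to test the congruence on words. -/
theorem eqv_of_words (F : MonoidAlgebra ℂ M →ₗ[ℂ] V) (P Q : MonoidAlgebra ℂ M)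
    (h : ∀ u v : M, F (of ℂ M u * P * of ℂ M v) = F (of ℂ M u * Q * of ℂ M v)) : Eqv F P Q := by
  intro x y
  induction x using MonoidAlgebra.induction_on with
  | of u =>
    induction y using MonoidAlgebra.induction_on with
    | of v => exact h u v
    | add x y hx hy => rw [mul_add, mul_add, map_add, map_add, hx, hy]
    | smul r x hx => rw [mul_smul_comm, mul_smul_comm, map_smul, map_smul, hx]
  | add x y hx hy => simp only [add_mul, map_add, hx, hy]
  | smul r x hx => simp only [smul_mul_assoc, map_smul, hx]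

/-- the elements which commute with `P` up to congruence -/
noncomputable def commAlg (F : MonoidAlgebra ℂ M →ₗ[ℂ] V) (P : MonoidAlgebra ℂ M) :
    Subalgebra ℂ (MonoidAlgebra ℂ M) where
  carrier := {Q | Eqv F (P * Q) (Q * P)}
  mul_mem' := by
    intro x y hx hy
    have h1 : Eqv F (P * (x * y)) (x * (P * y)) := by
      have := Eqv.mul hx (Eqv.refl F y)
      simpa only [mul_assoc] using this
    have h2 : Eqv F (x * (P * y)) (x * (y * P)) := Eqv.mul (Eqv.refl F x) hy
    have h3 := h1.trans h2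
    show Eqv F (P * (x * y)) (x * y * P)
    rw [mul_assoc x y P]
    exact h3
  add_mem' := by
    intro x y hx hy
    show Eqv F (P * (x + y)) ((x + y) * P)
    rw [mul_add, add_mul]
    exact Eqv.add hx hy
  algebraMap_mem' := by
    intro r
    show Eqv F (P * algebraMap ℂ _ r) (algebraMap ℂ _ r * P)
    rw [Algebra.commutes]
    exact Eqv.refl F _

theorem mem_commAlg (F : MonoidAlgebra ℂ M →ₗ[ℂ] V) (P Q : MonoidAlgebra ℂ M) :
    Q ∈ commAlg F P ↔ Eqv F (P * Q) (Q * P) := Iff.rfl

theorem lg_mem (S : Subalgebra ℂ (MonoidAlgebra ℂ M)) (X : MonoidAlgebra ℂ M) (hX : X ∈ S)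
    (k : ℕ) : lg k X ∈ S := by
  unfold lg
  apply S.sum_mem
  intro j _
  exact S.smul_mem (S.pow_mem hX _) _

theorem lg_comm (F : MonoidAlgebra ℂ M →ₗ[ℂ] V) (P Q : MonoidAlgebra ℂ M)
    (h : Eqv F (P * Q) (Q * P)) (k : ℕ) :
    Eqv F (lg k (P - 1) * lg k (Q - 1)) (lg k (Q - 1) * lg k (P - 1)) := by
  have h1 : lg k (Q - 1) ∈ commAlg F P := by
    apply lg_mem
    exact (commAlg F P).sub_mem h (commAlg F P).one_mem
  have h2 : P ∈ commAlg F (lg k (Q - 1)) := h1.symm
  have h3 : lg k (P - 1) ∈ commAlg F (lg k (Q - 1)) := by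
    apply lg_mem
    exact (commAlg F _).sub_mem h2 (commAlg F _).one_mem
  exact Eqv.symm h3

/-- trace property -/
theorem lin_trace (f : M → V) (h : ∀ u v, f (u * v) = f (v * u)) (x y : MonoidAlgebra ℂ M) :
    lin f (x * y) = lin f (y * x) := by
  induction x using MonoidAlgebra.induction_on with
  | of u =>
    induction y using MonoidAlgebra.induction_on with
    | of v => rw [← map_mul, ← map_mul, lin_of, lin_of, h]
    | add x y hx hy => rw [mul_add, add_mul, map_add, map_add, hx, hy]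
    | smul r x hx => rw [mul_smul_comm, smul_mul_assoc, map_smul, map_smul, hx]
  | add x y hx hy => simp only [add_mul, mul_add, map_add, hx, hy]
  | smul r x hx => simp only [smul_mul_assoc, mul_smul_comm, map_smul, hx]

/-- the derivation of a counting function -/
noncomputable def dcnt (c : M → ℂ) : MonoidAlgebra ℂ M →ₗ[ℂ] MonoidAlgebra ℂ M :=
  lin (fun u => c u • of ℂ M u)

theorem dcnt_mul (c : M → ℂ) (hc : ∀ u v, c (u * v) = c u + c v) (x y : MonoidAlgebra ℂ M) :
    dcnt c (x * y) = dcnt c x * y + x * dcnt c y := by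
  induction x using MonoidAlgebra.induction_on with
  | of u =>
    induction y using MonoidAlgebra.induction_on with
    | of v =>
      rw [← map_mul, dcnt, lin_of, lin_of, lin_of, hc, map_mul, smul_mul_assoc, mul_smul_comm,
        add_smul]
    | add x y hx hy => simp only [mul_add, map_add, hx, hy]; abel
    | smul r x hx => simp only [mul_smul_comm, map_smul, hx, smul_add]
  | add x y hx hy => simp only [add_mul, map_add, hx, hy]; abel
  | smul r x hx => simp only [smul_mul_assoc, map_smul, hx, smul_add]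

theorem lin_dcnt (f : M → ℂ) (c : M → ℂ) (x : MonoidAlgebra ℂ M) :
    lin (fun u => c u * f u) x = lin f (dcnt c x) := by
  induction x using MonoidAlgebra.induction_on with
  | of u => rw [lin_of, dcnt, lin_of, map_smul, lin_of, smul_eq_mul]
  | add x y hx hy => simp only [map_add, hx, hy]
  | smul r x hx => simp only [map_smul, hx]

end lin

end Pool.Agent.V11208.FT
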