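import Pool.Agent.V11208.FT.Markov

/-!
# Linking numbers
-/

namespace Pool.Agent.V11208.FT

section

variable {m : ℕ} (i j : Fin m) {n : ℕ}

/-- contribution of a letter -/
def cl (l : Letter n) (ell : Fin (n + 1) → Fin m) : ℤ :=
  if (ell l.1.castSucc = i ∧ ell l.1.succ = j) ∨ (ell l.1.castSucc = j ∧ ell l.1.succ = i)
    then (if l.2 then 1 else -1) else 0

theorem cross_cons (l : Letter n) (w : Word n) (ell : Fin (n + 1) → Fin m) :
    cross i j (l :: w) ell = cl i j l ell + cross i j w (ell ∘ adj l.1) := rfl

theorem cross_append (u v : Word n) (ell : Fin (n + 1) → Fin m) :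
    cross i j (u ++ v) ell = cross i j u ell + cross i j v (ell ∘ perm u) := by
  induction u generalizing ell with
  | nil => simp [cross, perm]
  | cons l u ih =>
    rw [List.cons_append, cross_cons, cross_cons, ih, add_assoc]
    rfl

theorem cross_cancel (u v : Word n) (k : Fin n) (e : Bool) (ell : Fin (n + 1) → Fin m) :
    cross i j (u ++ (k, e) :: (k, !e) :: v) ell = cross i j (u ++ v) ell := by
  rw [cross_append, cross_append, cross_cons, cross_cons]
  congr 1
  generalize ell ∘ perm u = f
  have h1 : (f ∘ adj (k, e).1) ∘ adj (k, !e).1 = f := by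
    funext x
    simp [adj]
  rw [h1]
  have h2 : cl i j (k, !e) (f ∘ adj k) = - cl i j (k, e) f := by
    simp only [cl, Function.comp_apply, adj, Equiv.swap_apply_left, Equiv.swap_apply_right]
    have : (f k.succ = i ∧ f k.castSucc = j ∨ f k.succ = j ∧ f k.castSucc = i) ↔
      (f k.castSucc = i ∧ f k.succ = j ∨ f k.castSucc = j ∧ f k.succ = i) := by tauto
    simp only [this]
    split_ifs <;> cases e <;> simp_all
  show cl i j (k, e) f + (cl i j (k, !e) (f ∘ adj k) + cross i j v f) = _
  rw [h2]
  ring

theorem cross_far (u v : Word n) (k l : Fin n) (e f : Bool) (h : (k : ℕ) + 1 < l)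
    (ell : Fin (n + 1) → Fin m) :
    cross i j (u ++ (k, e) :: (l, f) :: v) ell = cross i j (u ++ (l, f) :: (k, e) :: v) ell := by
  rw [cross_append, cross_append, cross_cons, cross_cons, cross_cons, cross_cons]
  congr 1
  generalize ell ∘ perm u = g
  have h1 : (g ∘ adj (k, e).1) ∘ adj (l, f).1 = (g ∘ adj (l, f).1) ∘ adj (k, e).1 := by
    funext x
    have := congrArg (fun p => g (p x)) (adj_far k l h)
    simpa using this
  rw [h1]
  have a1 : adj k l.castSucc = l.castSucc :=
    Equiv.swap_apply_of_ne_of_ne (by simp [Fin.ext_iff]; omega) (by simp [Fin.ext_iff]; omega)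
  have a2 : adj k l.succ = l.succ :=
    Equiv.swap_apply_of_ne_of_ne (by simp [Fin.ext_iff]; omega) (by simp [Fin.ext_iff]; omega)
  have a3 : adj l k.castSucc = k.castSucc :=
    Equiv.swap_apply_of_ne_of_ne (by simp [Fin.ext_iff]; omega) (by simp [Fin.ext_iff]; omega)
  have a4 : adj l k.succ = k.succ :=
    Equiv.swap_apply_of_ne_of_ne (by simp [Fin.ext_iff]; omega) (by simp [Fin.ext_iff]; omega)
  have h2 : cl i j (l, f) (g ∘ adj (k, e).1) = cl i j (l, f) g := by
    simp [cl, a1, a2]
  have h3 : cl i j (k, e) (g ∘ adj (l, f).1) = cl i j (k, e) g := by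
    simp [cl, a3, a4]
  rw [h2, h3]
  ring

theorem cross_braid (u v : Word n) (k l : Fin n) (h : (k : ℕ) + 1 = l)
    (ell : Fin (n + 1) → Fin m) :
    cross i j (u ++ (k, true) :: (l, true) :: (k, true) :: v) ell =
      cross i j (u ++ (l, true) :: (k, true) :: (l, true) :: v) ell := by
  rw [cross_append, cross_append]
  simp only [cross_cons]
  congr 1
  generalize ell ∘ perm u = g
  have hb := adj_braid k l h
  have h1 : ((g ∘ adj k) ∘ adj l) ∘ adj k = ((g ∘ adj l) ∘ adj k) ∘ adj l := by
    funext x
    have := congrArg (fun p => g (p x)) hb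
    simpa using this
  rw [h1]
  have hj : l.castSucc = k.succ := by ext; simp [h]
  have a1 : adj k l.succ = l.succ :=
    Equiv.swap_apply_of_ne_of_ne (by simp [Fin.ext_iff]; omega) (by simp [Fin.ext_iff]; omega)
  have a2 : adj l k.castSucc = k.castSucc :=
    Equiv.swap_apply_of_ne_of_ne (by simp [Fin.ext_iff]; omega) (by simp [Fin.ext_iff]; omega)
  have a3 : adj k k.castSucc = k.succ := Equiv.swap_apply_left _ _
  have a4 : adj k k.succ = k.castSucc := Equiv.swap_apply_right _ _
  have a5 : adj l k.succ = l.succ := by rw [← hj]; exact Equiv.swap_apply_left _ _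
  have a6 : adj l l.succ = k.succ := by rw [← hj]; exact Equiv.swap_apply_right _ _
  simp only [cl, Function.comp_apply, hj, a1, a2, a3, a4, a5, a6, if_true]
  ring

theorem cross_up (w : Word n) (f : Fin (n + 2) → Fin m) :
    cross i j (up w) f = cross i j w (f ∘ Fin.castSucc) := by
  induction w generalizing f with
  | nil => rfl
  | cons l w ih =>
    have h0 : up (l :: w) = (l.1.castSucc, l.2) :: up w := rfl
    rw [h0, cross_cons, cross_cons, ih]
    congr 1
    · rw [show (f ∘ adj (l.1.castSucc, l.2).1) ∘ Fin.castSucc = (f ∘ Fin.castSucc) ∘ adj l.1 from ?_]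
      funext x
      simp only [Function.comp_apply, adj]
      congr 1
      by_cases h1 : x = l.1.castSucc
      · subst h1
        rw [Equiv.swap_apply_left, Equiv.swap_apply_left, Fin.succ_castSucc]
      · by_cases h2 : x = l.1.succ
        · subst h2
          rw [← Fin.succ_castSucc, Equiv.swap_apply_right, Equiv.swap_apply_right]
        · rw [Equiv.swap_apply_of_ne_of_ne h1 h2, Equiv.swap_apply_of_ne_of_ne]
          · intro h; exact h1 (Fin.castSucc_injective _ h)
          · intro h; rw [Fin.succ_castSucc] at h; exact h2 (Fin.castSucc_injective _ h)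

theorem perm_up (w : Word n) (x : Fin (n + 1)) :
    perm (up w) x.castSucc = (perm w x).castSucc := by
  induction w generalizing x with
  | nil => rfl
  | cons l w ih =>
    have h0 : up (l :: w) = (l.1.castSucc, l.2) :: up w := rfl
    rw [h0, perm, perm, Equiv.Perm.mul_apply, Equiv.Perm.mul_apply, ih]
    generalize perm w x = y
    unfold adj
    by_cases h1 : y = l.1.castSucc
    · subst h1
      rw [Equiv.swap_apply_left, Equiv.swap_apply_left, Fin.succ_castSucc]
    · by_cases h2 : y = l.1.succ
      · subst h2
        rw [← Fin.succ_castSucc, Equiv.swap_apply_right, Equiv.swap_apply_right]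
      · rw [Equiv.swap_apply_of_ne_of_ne h1 h2, Equiv.swap_apply_of_ne_of_ne]
        · intro h; exact h1 (Fin.castSucc_injective _ h)
        · intro h; rw [Fin.succ_castSucc] at h; exact h2 (Fin.castSucc_injective _ h)

theorem perm_up_last (w : Word n) : perm (up w) (Fin.last (n + 1)) = Fin.last (n + 1) := by
  induction w with
  | nil => rfl
  | cons l w ih =>
    have h0 : up (l :: w) = (l.1.castSucc, l.2) :: up w := rfl
    rw [h0, perm, Equiv.Perm.mul_apply, ih]
    unfold adj
    apply Equiv.swap_apply_of_ne_of_ne
    · exact (Fin.castSucc_lt_last _).ne'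
    · rw [Fin.succ_castSucc]; exact (Fin.castSucc_lt_last _).ne'

theorem closes_comp {w : Word n} {ell : Fin (n + 1) → Fin m} (h : Closes w ell) :
    ell ∘ perm w = ell := by
  funext x
  exact ((h.2 x (perm w x)).mpr ⟨1, by simp⟩).symm

theorem cross_stab (hij : i ≠ j) (w : Word n) (e : Bool) (ell : Fin (n + 1) → Fin m)
    (h : Closes w ell) :
    cross i j (up w ++ [(Fin.last n, e)])
      (Fin.snoc (α := fun _ => Fin m) ell (ell (Fin.last n))) = cross i j w ell := by
  have h1 : (Fin.snoc (α := fun _ => Fin m) ell (ell (Fin.last n))) ∘ Fin.castSucc = ell := by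
    funext x
    simp
  rw [cross_append, cross_up, h1, cross_cons]
  have h2 : ((Fin.snoc (α := fun _ => Fin m) ell (ell (Fin.last n))) ∘ perm (up w))
      (Fin.last n).castSucc = ell (Fin.last n) := by
    rw [Function.comp_apply, perm_up, Fin.snoc_castSucc]
    exact congrFun (closes_comp h) _
  have h3 : ((Fin.snoc (α := fun _ => Fin m) ell (ell (Fin.last n))) ∘ perm (up w))
      (Fin.last n).succ = ell (Fin.last n) := by
    rw [Function.comp_apply, Fin.succ_last, perm_up_last, Fin.snoc_last]
  have h4 : cl i j (Fin.last n, e)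
      ((Fin.snoc (α := fun _ => Fin m) ell (ell (Fin.last n))) ∘ perm (up w)) = 0 := by
    unfold cl
    simp only [h2, h3]
    rw [if_neg]
    rintro (⟨a, b⟩ | ⟨a, b⟩)
    · exact hij (a.symm.trans b)
    · exact hij (b.symm.trans a)
  rw [h4]
  simp [cross]

theorem cross_conj (u v : Word n) (ell : Fin (n + 1) → Fin m) (h : Closes (u ++ v) ell) :
    cross i j (v ++ u) (ell ∘ perm u) = cross i j (u ++ v) ell := by
  rw [cross_append, cross_append]
  have h1 : (ell ∘ perm u) ∘ perm v = ell := by
    have := closes_comp h
    rw [perm_append] at this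
    exact this
  rw [h1, add_comm]

end

/-- The linking number of the components `i` and `j`: half the sum of the signs of the crossings
between them (and `0` if `i = j`). -/
noncomputable def lk {m : ℕ} (i j : Fin m) : Link m → ℂ :=
  Quot.lift (fun L => if i = j then 0 else (cross i j L.w L.ell : ℂ) / 2) (by
    intro a b hab
    by_cases hij : i = j
    · simp [hij]
    · simp only [hij, if_false]
      have key : cross i j a.w a.ell = cross i j b.w b.ell := by
        cases hab with
        | cancel n u v k e ell h h' => exact cross_cancel i j u v k e ell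
        | far n u v k l e f hkl ell h h' => exact cross_far i j u v k l e f hkl ell
        | braid n u v k l hkl ell h h' => exact cross_braid i j u v k l hkl ell
        | conj n u v ell h h' => exact (cross_conj i j u v ell h).symm
        | stab n w e ell h h' => exact (cross_stab i j hij w e ell h).symm
      rw [key])

end Pool.Agent.V11208.FT
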