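import Pool.Agent.V11208.FT.Burau

/-!
# Markov invariance of the Conway function
-/

namespace Pool.Agent.V11208.FT

open Matrix

section perm

variable {n : ℕ}

theorem perm_append (u v : Word n) : perm (u ++ v) = perm u * perm v := by
  induction u with
  | nil => simp [perm]
  | cons l u ih => simp [perm, ih, mul_assoc]

theorem adj_mul_self (i : Fin n) : adj i * adj i = 1 := by
  simp [adj]

theorem perm_cancel (u v : Word n) (i : Fin n) (e f : Bool) :
    perm (u ++ (i, e) :: (i, f) :: v) = perm (u ++ v) := by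
  rw [perm_append, perm_append, perm, perm, ← mul_assoc (adj i), adj_mul_self, one_mul]

theorem adj_far (i j : Fin n) (h : (i : ℕ) + 1 < j) : adj i * adj j = adj j * adj i := by
  unfold adj
  apply Equiv.Perm.Disjoint.commute
  rw [Equiv.Perm.disjoint_iff_eq_or_eq]
  intro x
  by_cases hx : x = i.castSucc ∨ x = i.succ
  · right
    apply Equiv.swap_apply_of_ne_of_ne
    · rcases hx with rfl | rfl <;> · intro h'; simp [Fin.ext_iff] at h'; omega
    · rcases hx with rfl | rfl <;> · intro h'; simp [Fin.ext_iff] at h'; omega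
  · left
    push Not at hx
    exact Equiv.swap_apply_of_ne_of_ne hx.1 hx.2

theorem perm_far (u v : Word n) (i j : Fin n) (e f : Bool) (h : (i : ℕ) + 1 < j) :
    perm (u ++ (i, e) :: (j, f) :: v) = perm (u ++ (j, f) :: (i, e) :: v) := by
  rw [perm_append, perm_append, perm, perm, perm, perm, ← mul_assoc (adj i), adj_far i j h,
    mul_assoc]

theorem adj_braid (i j : Fin n) (h : (i : ℕ) + 1 = j) :
    adj i * (adj j * adj i) = adj j * (adj i * adj j) := by
  have hj : j.castSucc = i.succ := by ext; simp [h]
  have h1 : i.castSucc ≠ i.succ := by simp [Fin.ext_iff]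
  have h2 : i.castSucc ≠ j.succ := by simp [Fin.ext_iff]; omega
  have h3 : i.succ ≠ j.succ := by simp [Fin.ext_iff]; omega
  unfold adj
  rw [hj]
  ext x
  congr 1
  simp only [Equiv.Perm.mul_apply]
  by_cases x1 : x = i.castSucc
  · subst x1
    rw [Equiv.swap_apply_left, Equiv.swap_apply_left,
      Equiv.swap_apply_of_ne_of_ne h2.symm h3.symm, Equiv.swap_apply_of_ne_of_ne h1 h2,
      Equiv.swap_apply_left, Equiv.swap_apply_left]
  · by_cases x2 : x = i.succ
    · subst x2
      rw [Equiv.swap_apply_right, Equiv.swap_apply_of_ne_of_ne h1 h2, Equiv.swap_apply_left,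
        Equiv.swap_apply_left, Equiv.swap_apply_of_ne_of_ne h2.symm h3.symm,
        Equiv.swap_apply_right]
    · by_cases x3 : x = j.succ
      · subst x3
        rw [Equiv.swap_apply_of_ne_of_ne h2.symm h3.symm, Equiv.swap_apply_right,
          Equiv.swap_apply_right, Equiv.swap_apply_of_ne_of_ne h1 h2]
      · rw [Equiv.swap_apply_of_ne_of_ne x1 x2, Equiv.swap_apply_of_ne_of_ne x2 x3,
          Equiv.swap_apply_of_ne_of_ne x1 x2, Equiv.swap_apply_of_ne_of_ne x2 x3]

theorem perm_braid (u v : Word n) (i j : Fin n) (e e' f g g' h : Bool) (hij : (i : ℕ) + 1 = j) :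
    perm (u ++ (i, e) :: (j, f) :: (i, g) :: v) =
      perm (u ++ (j, e') :: (i, g') :: (j, h) :: v) := by
  rw [perm_append, perm_append]
  simp only [perm]
  have := adj_braid i j hij
  rw [show adj i * (adj j * (adj i * perm v)) = (adj i * (adj j * adj i)) * perm v by
    simp only [mul_assoc], this]
  simp only [mul_assoc]

/-- The word on one more strand. -/
def up (w : Word n) : Word (n + 1) := w.map (fun l => (l.1.castSucc, l.2))

end perm

section nabinv

variable {R : Type*} [CommRing R] (s : Rˣ) {n : ℕ}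

theorem nab_of_eq (u v : Word n) (h : Bur s u = Bur s v) (h' : expo u = expo v) :
    nab s u = nab s v := by
  rw [nab, nab, cc, cc, h, h']

theorem nab_cancel (u v : Word n) (i : Fin n) (e : Bool) :
    nab s (u ++ (i, e) :: (i, !e) :: v) = nab s (u ++ v) := by
  apply nab_of_eq
  · rw [Bur_append, Bur_append, Bur, Bur, ← Matrix.mul_assoc (bur s (i, e)), bur_cancel,
      Matrix.one_mul]
  · rw [expo_append, expo_append, expo, expo]
    cases e <;> simp

theorem nab_far (u v : Word n) (i j : Fin n) (e f : Bool) (h : (i : ℕ) + 1 < j) :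
    nab s (u ++ (i, e) :: (j, f) :: v) = nab s (u ++ (j, f) :: (i, e) :: v) := by
  apply nab_of_eq
  · rw [Bur_append, Bur_append, Bur, Bur, Bur, Bur, ← Matrix.mul_assoc (bur s (i, e)),
      bur_far s i j e f h, Matrix.mul_assoc]
  · simp only [expo_append, expo]; ring

theorem nab_braid (u v : Word n) (i j : Fin n) (h : (i : ℕ) + 1 = j) :
    nab s (u ++ (i, true) :: (j, true) :: (i, true) :: v) =
      nab s (u ++ (j, true) :: (i, true) :: (j, true) :: v) := by
  apply nab_of_eq
  · rw [Bur_append, Bur_append]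
    simp only [Bur]
    rw [show bur s (i, true) * (bur s (j, true) * (bur s (i, true) * Bur s v)) =
      (bur s (i, true) * (bur s (j, true) * bur s (i, true))) * Bur s v by
      simp only [Matrix.mul_assoc], bur_braid s i j h]
    simp only [Matrix.mul_assoc]
  · simp only [expo_append, expo]

/-- The block inclusion. -/
def blk (A : Matrix (Fin (n + 1)) (Fin (n + 1)) R) : Matrix (Fin (n + 2)) (Fin (n + 2)) R :=
  (fromBlocks A 0 0 (1 : Matrix (Fin 1) (Fin 1) R)).submatrix
    (finSumFinEquiv (m := n + 1) (n := 1)).symm (finSumFinEquiv (m := n + 1) (n := 1)).symm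

theorem blk_mul (A B : Matrix (Fin (n + 1)) (Fin (n + 1)) R) :
    blk (A * B) = blk A * blk B := by
  unfold blk
  rw [Matrix.submatrix_mul_equiv, fromBlocks_multiply]
  simp

theorem blk_one : blk (1 : Matrix (Fin (n + 1)) (Fin (n + 1)) R) = 1 := by
  unfold blk
  rw [fromBlocks_one, submatrix_one_equiv]

theorem blk_bur (l : Letter n) : bur s (l.1.castSucc, l.2) = blk (bur s l) := by
  have hl := l.1.isLt
  ext a b
  unfold blk
  refine Fin.lastCases ?_ (fun a => ?_) a <;> refine Fin.lastCases ?_ (fun b => ?_) b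
  · have : (finSumFinEquiv (m := n + 1) (n := 1)).symm (Fin.last (n + 1)) = Sum.inr 0 := by
      rw [Equiv.symm_apply_eq]; rfl
    simp only [submatrix_apply, this, fromBlocks_apply₂₂]
    simp [bur, pv, qv, vecMulVec_apply, Fin.ext_iff, Pi.single_apply, l.1.isLt.ne']
    intro h; omega
  · have : (finSumFinEquiv (m := n + 1) (n := 1)).symm (Fin.last (n + 1)) = Sum.inr 0 := by
      rw [Equiv.symm_apply_eq]; rfl
    have h2 : (finSumFinEquiv (m := n + 1) (n := 1)).symm (Fin.castSucc b) = Sum.inl b := by
      rw [Equiv.symm_apply_eq]; rfl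
    simp only [submatrix_apply, this, h2, fromBlocks_apply₂₁]
    simp [bur, pv, qv, vecMulVec_apply, Fin.ext_iff, Pi.single_apply, l.1.isLt.ne', b.isLt.ne']
    intro h; omega
  · have : (finSumFinEquiv (m := n + 1) (n := 1)).symm (Fin.last (n + 1)) = Sum.inr 0 := by
      rw [Equiv.symm_apply_eq]; rfl
    have h2 : (finSumFinEquiv (m := n + 1) (n := 1)).symm (Fin.castSucc a) = Sum.inl a := by
      rw [Equiv.symm_apply_eq]; rfl
    simp only [submatrix_apply, this, h2, fromBlocks_apply₁₂]
    simp [bur, pv, qv, vecMulVec_apply, Fin.ext_iff, Pi.single_apply, l.1.isLt.ne', a.isLt.ne]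
    intro h; omega
  · have h1 : (finSumFinEquiv (m := n + 1) (n := 1)).symm (Fin.castSucc a) = Sum.inl a := by
      rw [Equiv.symm_apply_eq]; rfl
    have h2 : (finSumFinEquiv (m := n + 1) (n := 1)).symm (Fin.castSucc b) = Sum.inl b := by
      rw [Equiv.symm_apply_eq]; rfl
    simp only [submatrix_apply, h1, h2, fromBlocks_apply₁₁]
    simp [bur, pv, qv, vecMulVec_apply, Fin.ext_iff, Pi.single_apply, Matrix.one_apply]

theorem blk_Bur (w : Word n) : Bur s (up w) = blk (Bur s w) := by
  induction w with
  | nil => simp [up, Bur, blk_one]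
  | cons l w ih =>
    have : up (l :: w) = (l.1.castSucc, l.2) :: up w := rfl
    rw [this, Bur, Bur, ih, blk_mul, blk_bur]

theorem expo_up (w : Word n) : expo (up w) = expo w := by
  induction w with
  | nil => rfl
  | cons l w ih =>
    have : up (l :: w) = (l.1.castSucc, l.2) :: up w := rfl
    rw [this, expo, expo, ih]

theorem isUnit_yv (e : Bool) : IsUnit (yv s e) := by
  unfold yv
  cases e
  · simp
  · simp

theorem cc_stab (w : Word n) (e : Bool) :
    cc s (up w ++ [(Fin.last n, e)]) = yv s e * cc s w := by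
  set E := (finSumFinEquiv (m := n + 1) (n := 1)) with hE
  have hlast : E.symm (Fin.last (n + 1)) = Sum.inr 0 := by
    rw [Equiv.symm_apply_eq]; rfl
  have hcs : ∀ a : Fin (n + 1), E.symm (Fin.castSucc a) = Sum.inl a := by
    intro a
    rw [Equiv.symm_apply_eq]; rfl
  set A : Matrix (Fin (n + 1)) (Fin (n + 1)) R := 1 - Bur s w + e00 R n with hA
  set b : Fin (n + 1) → R := yv s e • (s : R) ^ 2 • (Bur s w *ᵥ Pi.single (Fin.last n) 1) with hb
  set el : Fin (n + 1) → R := Pi.single (Fin.last n) 1 with hel
  have h1 : (1 - Bur s (up w ++ [(Fin.last n, e)]) + e00 R (n + 1)) =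
      (fromBlocks (A + vecMulVec b el) (Matrix.of fun i (_ : Fin 1) => -b i)
        (Matrix.of fun (_ : Fin 1) j => - yv s e * el j)
        (Matrix.of fun (_ : Fin 1) (_ : Fin 1) => yv s e)).submatrix E.symm E.symm := by
    rw [Bur_append, blk_Bur, Bur, Bur, Matrix.mul_one, bur, Matrix.mul_add, Matrix.mul_one,
      Matrix.mul_smul, mul_vecMulVec]
    have hp : blk (Bur s w) *ᵥ pv s (Fin.last n) =
        Sum.elim (fun i => -(s : R) ^ 2 * (Bur s w *ᵥ Pi.single (Fin.last n) 1) i)
          (fun _ : Fin 1 => 1) ∘ E.symm := by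
      have : pv s (Fin.last n) = Sum.elim (fun i => -(s : R) ^ 2 * el i)
          (fun _ : Fin 1 => (1 : R)) ∘ E.symm := by
        funext a
        refine Fin.lastCases ?_ (fun a => ?_) a
        · simp only [Function.comp_apply, hlast, Sum.elim_inr]
          simp [pv, Pi.single_apply, Fin.ext_iff]
        · simp only [Function.comp_apply, hcs, Sum.elim_inl]
          simp [pv, Pi.single_apply, Fin.ext_iff, hel, a.isLt.ne]
          split_ifs <;> simp
      rw [this, blk, submatrix_mulVec_equiv, Function.comp_assoc, Equiv.symm_symm,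
        Equiv.symm_comp_self, Function.comp_id, fromBlocks_mulVec]
      congr 1
      funext a
      rcases a with a | a
      · simp only [Sum.elim_inl, zero_mulVec, add_zero, hel]
        have : (fun i => -(s : R) ^ 2 * (Pi.single (Fin.last n) 1 : Fin (n + 1) → R) i) =
          (-(s : R) ^ 2) • (Pi.single (Fin.last n) 1 : Fin (n + 1) → R) := rfl
        simp only [Function.comp_def, Sum.elim_inl, Sum.elim_inr]
        rw [this, mulVec_smul]
        simp
      · simp [Function.comp_def]
    have hq1 : ∀ c : Fin (n + 1), qv R (Fin.last n) c.castSucc = el c := by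
      intro c
      have a1 : (Pi.single (Fin.last n).succ (1 : R) : Fin (n + 2) → R) c.castSucc = 0 := by
        apply Pi.single_eq_of_ne
        exact (Fin.castSucc_lt_last c).ne
      rw [qv, Pi.sub_apply, a1, sub_zero]
      by_cases hc : c = Fin.last n
      · rw [hc, Pi.single_eq_same, hel, Pi.single_eq_same]
      · rw [hel, Pi.single_eq_of_ne hc, Pi.single_eq_of_ne]
        intro h
        exact hc (Fin.castSucc_injective _ h)
    have hq2 : qv R (Fin.last n) (Fin.last (n + 1)) = -1 := by
      rw [qv, Pi.sub_apply, Pi.single_eq_of_ne (Fin.castSucc_lt_last _).ne', Fin.succ_last,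
        Pi.single_eq_same, zero_sub]
    have h01 : (Pi.single (0 : Fin (n + 2)) (1 : R) : Fin (n + 2) → R) (Fin.last (n + 1)) = 0 := by
      simp [Pi.single_apply, Fin.ext_iff]
    have h02 : ∀ c : Fin (n + 1), (Pi.single (0 : Fin (n + 2)) (1 : R) : Fin (n + 2) → R) c.castSucc
        = (Pi.single (0 : Fin (n + 1)) (1 : R) : Fin (n + 1) → R) c := by
      intro c
      by_cases hc : c = 0
      · rw [hc, Fin.castSucc_zero, Pi.single_eq_same, Pi.single_eq_same]
      · rw [Pi.single_eq_of_ne hc, Pi.single_eq_of_ne]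
        intro h
        exact hc (Fin.castSucc_injective _ h)
    rw [hp]
    ext a c
    refine Fin.lastCases ?_ (fun a => ?_) a <;> refine Fin.lastCases ?_ (fun c => ?_) c
    · simp only [submatrix_apply, hlast, fromBlocks_apply₂₂, blk, Matrix.add_apply, Matrix.sub_apply,
        Matrix.smul_apply, vecMulVec_apply, Function.comp_apply, Sum.elim_inr, of_apply, e00]
      simp [qv, Pi.single_apply, Fin.ext_iff]
    · simp only [submatrix_apply, hlast, hcs, fromBlocks_apply₂₁, blk, Matrix.add_apply, Matrix.sub_apply,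
        Matrix.smul_apply, vecMulVec_apply, Function.comp_apply, Sum.elim_inr, of_apply, e00, ← hE,
        hq1, h01, Matrix.zero_apply, smul_eq_mul]
      rw [Matrix.one_apply_ne (Fin.castSucc_lt_last c).ne']
      ring
    · simp only [submatrix_apply, hlast, hcs, fromBlocks_apply₁₂, blk, Matrix.add_apply, Matrix.sub_apply,
        Matrix.smul_apply, vecMulVec_apply, Function.comp_apply, Sum.elim_inl, of_apply, e00, ← hE,
        hq2, h01, Matrix.zero_apply, smul_eq_mul]
      rw [Matrix.one_apply_ne (Fin.castSucc_lt_last a).ne, hb]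
      simp only [Pi.smul_apply, smul_eq_mul]
      ring
    · simp only [submatrix_apply, hcs, fromBlocks_apply₁₁, blk, Matrix.add_apply, Matrix.sub_apply,
        Matrix.smul_apply, vecMulVec_apply, Function.comp_apply, Sum.elim_inl, of_apply, e00, hA, ← hE,
        hq1, h02, smul_eq_mul]
      have h1ac : (1 : Matrix (Fin (n + 2)) (Fin (n + 2)) R) a.castSucc c.castSucc
          = (1 : Matrix (Fin (n + 1)) (Fin (n + 1)) R) a c := by
        simp [Matrix.one_apply]
      rw [h1ac, hb]
      simp only [Pi.smul_apply, smul_eq_mul]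
      ring
  have h2 : (fromBlocks (A + vecMulVec b el) (Matrix.of fun i (_ : Fin 1) => -b i)
        (Matrix.of fun (_ : Fin 1) j => - yv s e * el j)
        (Matrix.of fun (_ : Fin 1) (_ : Fin 1) => yv s e)) *
      (fromBlocks 1 0 (Matrix.of fun (_ : Fin 1) j => el j) 1) =
      fromBlocks A (Matrix.of fun i (_ : Fin 1) => -b i) 0
        (Matrix.of fun (_ : Fin 1) (_ : Fin 1) => yv s e) := by
    rw [fromBlocks_multiply]
    congr 1
    · ext i j
      simp [vecMulVec_apply, Matrix.mul_apply]
    · ext i j
      simp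
    · ext i j
      simp [Matrix.mul_apply]
    · ext i j
      simp
  rw [cc, h1, det_submatrix_equiv_self]
  have h3 := congrArg det h2
  rw [det_mul, det_fromBlocks_zero₁₂, det_fromBlocks_zero₂₁, det_one, det_one, mul_one,
    mul_one, det_unique (of fun (_ : Fin 1) (_ : Fin 1) => yv s e)] at h3
  rw [h3, of_apply, mul_comm, cc]

theorem nab_stab (w : Word n) (e : Bool) :
    nab s (up w ++ [(Fin.last n, e)]) = nab s w := by
  rw [nab, nab, cc_stab, expo_append, expo_up]
  cases e
  · have h1 : ((n + 1 : ℕ) : ℤ) - (expo w + expo [(Fin.last n, false)]) =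
        ((n : ℤ) - expo w) + 1 + 1 := by
      simp only [expo, Bool.false_eq_true, if_false]; push_cast; ring
    have h' : (s : R) * ((s⁻¹ : Rˣ) : R) = 1 := Units.mul_inv s
    rw [h1, _root_.zpow_add_one, _root_.zpow_add_one, Units.val_mul, Units.val_mul]
    simp only [yv, Bool.false_eq_true, if_false]
    generalize (((s ^ ((n : ℤ) - expo w) : Rˣ)) : R) = z
    linear_combination (cc s w * z) * ((s : R) * ((s⁻¹ : Rˣ) : R) + 1) * h'
  · have h1 : ((n + 1 : ℕ) : ℤ) - (expo w + expo [(Fin.last n, true)]) =
        ((n : ℤ) - expo w) := by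
      simp only [expo, if_true]; push_cast; ring
    rw [h1]
    simp [yv]

end nabinv

end Pool.Agent.V11208.FT
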