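import Pool.Agent.V11208.FT.Words

/-!
# Non-membership in the ideal generated by the linking numbers
-/

namespace Pool.Agent.V11208.FT

open MonoidAlgebra

/-- conjugators -/
def gc : Fin 5 → Word 3 := ![[(1, true)], [], [(2, true), (1, true)], [], []]

/-- twisted positions -/
def gi : Fin 5 → Fin 3 := ![0, 0, 0, 1, 2]

/-- pure braid generators -/
def gen (g : Fin 5) : Word 3 := full (gc g) (gi g)

/-- half twists -/
def hlf (g : Fin 5) : Word 3 := half (gc g) (gi g)

/-- the linked pair -/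
def pr : Fin 5 → Fin 4 × Fin 4 := ![(0, 2), (0, 1), (0, 3), (1, 2), (2, 3)]

theorem perm_gen (g : Fin 5) : perm (gen g) = 1 := by
  revert g
  decide

theorem cross_gen (g : Fin 5) (i j : Fin 4) (hij : i < j) :
    cross i j (gen g) id = if (i, j) = pr g then 2 else 0 := by
  revert g i j
  decide

/-- words in the pure braid generators -/
abbrev GM : Type := FreeMonoid (Fin 5)

/-- expansion of a word in the generators -/
def ph : GM →* WM 3 := FreeMonoid.lift (fun g => FreeMonoid.ofList (gen g))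

/-- as a list -/
def phl (u : GM) : Word 3 := FreeMonoid.toList (ph u)

theorem phl_mul (u v : GM) : phl (u * v) = phl u ++ phl v := by
  rw [phl, map_mul, FreeMonoid.toList_mul]; rfl

theorem phl_of (g : Fin 5) : phl (FreeMonoid.of g) = gen g := by
  rw [phl, ph, FreeMonoid.lift_eval_of, FreeMonoid.toList_ofList]

theorem phl_one : phl 1 = [] := by
  rw [phl, map_one, FreeMonoid.toList_one]

theorem perm_phl (u : GM) : perm (phl u) = 1 := by
  induction u using FreeMonoid.inductionOn' with
  | one => rw [phl_one]; rfl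
  | of_mul x xs ih => rw [phl_mul, perm_append, phl_of, perm_gen, ih, one_mul]

theorem closes_phl (u : GM) : Closes (phl u) (id : Fin 4 → Fin 4) := by
  refine ⟨Function.surjective_id, fun a b => ?_⟩
  rw [perm_phl]
  simp [Equiv.Perm.sameCycle_one]

/-- expansion as an algebra homomorphism -/
noncomputable def Ps : MonoidAlgebra ℂ GM →ₐ[ℂ] MonoidAlgebra ℂ (WM 3) :=
  MonoidAlgebra.lift ℂ _ GM ((of ℂ (WM 3)).comp ph)

theorem Ps_of (u : GM) : Ps (of ℂ GM u) = we (phl u) := by
  rw [Ps, MonoidAlgebra.lift_of, MonoidHom.comp_apply, of_eq_we]; rfl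

/-- pure generator -/
noncomputable def Ag (g : Fin 5) : MonoidAlgebra ℂ GM := of ℂ GM (FreeMonoid.of g)

theorem Ps_Ag (g : Fin 5) : Ps (Ag g) = we (full (gc g) (gi g)) := by
  rw [Ag, Ps_of, phl_of]; rfl

theorem Ps_lg (k : ℕ) (X : MonoidAlgebra ℂ GM) : Ps (lg k X) = lg k (Ps X) := by
  rw [lg, lg, map_sum]
  apply Finset.sum_congr rfl
  intro j _
  rw [map_smul, map_pow]

/-- value of a functional on pure braids -/
theorem lin_phl (f : Word 3 → ℂ) (P : MonoidAlgebra ℂ GM) :
    lin (fun u => f (phl u)) P = fun_ f (Ps P) := by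
  induction P using MonoidAlgebra.induction_on with
  | of u => rw [lin_of, Ps_of, fun_we]
  | add x y hx hy => simp only [map_add, hx, hy]
  | smul r x hx => simp only [map_smul, hx]

/-- linking count -/
noncomputable def cnt (i j : Fin 4) (u : GM) : ℂ := ((cross i j (phl u) id : ℤ) : ℂ) / 2

theorem cnt_mul (i j : Fin 4) (u v : GM) : cnt i j (u * v) = cnt i j u + cnt i j v := by
  rw [cnt, phl_mul, cross_append, perm_phl, cnt, cnt]
  have : (id : Fin 4 → Fin 4) ∘ (1 : Equiv.Perm (Fin (3 + 1))) = id := rfl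
  rw [this]
  push_cast
  ring

theorem cnt_of (i j : Fin 4) (hij : i < j) (g : Fin 5) :
    cnt i j (FreeMonoid.of g) = if (i, j) = pr g then 1 else 0 := by
  rw [cnt, phl_of, cross_gen g i j hij]
  split_ifs <;> simp

theorem D_X (i j : Fin 4) (hij : i < j) (g : Fin 5) :
    dcnt (cnt i j) (Ag g - 1) = if (i, j) = pr g then 1 + (Ag g - 1) else 0 := by
  have h1 : dcnt (cnt i j) 1 = 0 := by
    have h := dcnt_mul (cnt i j) (cnt_mul i j) 1 1
    rw [mul_one, one_mul, mul_one] at h
    exact left_eq_add.mp h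
  rw [map_sub, h1, sub_zero, dcnt, Ag, lin_of, cnt_of i j hij g]
  split_ifs
  · rw [one_smul]; abel
  · rw [zero_smul]

theorem D_L (i j : Fin 4) (hij : i < j) (g : Fin 5) (M : ℕ) :
    dcnt (cnt i j) (lg M (Ag g - 1)) = if (i, j) = pr g then 1 - (-(Ag g - 1)) ^ M else 0 := by
  have h := D_X i j hij g
  split_ifs with hg
  · rw [if_pos hg] at h
    exact D_lg _ (dcnt_mul (cnt i j) (cnt_mul i j)) _ h M
  · rw [if_neg hg] at h
    exact D_lg_zero _ (dcnt_mul (cnt i j) (cnt_mul i j)) _ h M

/-- The derivative is killed by finite type invariants. -/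
theorem kill (w : Link 4 → ℂ) (N M : ℕ) (hw : FiniteTypeLE N w) (hM : N < M) (i j : Fin 4)
    (hij : i < j) :
    lin (fun u => ev w (id : Fin 4 → Fin 4) (phl u)) (dcnt (cnt i j)
      (theElt (lg M (Ag 0 - 1)) (lg M (Ag 1 - 1)) (lg M (Ag 2 - 1)) (lg M (Ag 3 - 1))
        (lg M (Ag 4 - 1)))) = 0 := by
  set F : MonoidAlgebra ℂ GM →ₗ[ℂ] ℂ := lin (fun u => ev w (id : Fin 4 → Fin 4) (phl u)) with hF
  have hFP : ∀ P, F P = fun_ (ev w (id : Fin 4 → Fin 4)) (Ps P) := fun P => lin_phl _ P
  have hT : ∀ x y, F (x * y) = F (y * x) := by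
    apply lin_trace
    intro u v
    rw [phl_mul, phl_mul]
    exact ev_conj w _ _ _ (perm_phl u)
  have hR : ∀ g x y, F (x * (-(Ag g - 1)) ^ M * y) = 0 := by
    intro g x y
    have hPs : Ps (x * (-(Ag g - 1)) ^ M * y) =
        Ps x * (-1) ^ M * (we (full (gc g) (gi g)) - 1) ^ M * Ps y := by
      rw [map_mul, map_mul, map_pow, map_neg, map_sub, map_one, Ps_Ag, neg_pow]
      simp only [mul_assoc]
    rw [hFP, hPs]
    have h := ev_nilp w N hw (id : Fin 4 → Fin 4) (gc g) (gi g) M hM (Ps x * (-1) ^ M) (Ps y)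
    rw [mul_zero, zero_mul, map_zero] at h
    exact h
  have hbe : ∀ x y, F (x * br (lg M (Ag 1 - 1)) (lg M (Ag 4 - 1)) * y) = 0 := by
    intro x y
    have hc : Eqv (fun_ (ev w (id : Fin 4 → Fin 4)))
        (we (full (gc 1) (gi 1)) * we (full (gc 4) (gi 4)))
        (we (full (gc 4) (gi 4)) * we (full (gc 1) (gi 1))) := by
      apply eqv_of_words
      intro u v
      rw [of_eq_we, of_eq_we, ← we_append, ← we_append, ← we_append, ← we_append, ← we_append,
        ← we_append, fun_we, fun_we]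
      set U := FreeMonoid.toList u
      set W := FreeMonoid.toList v
      have e1 : U ++ (full (gc 1) (gi 1) ++ full (gc 4) (gi 4)) ++ W =
          U ++ ((0, true) :: (0, true) :: (2, true) :: (2, true) :: W) := by
        simp [full, gc, gi, winv]
      have e2 : U ++ (full (gc 4) (gi 4) ++ full (gc 1) (gi 1)) ++ W =
          U ++ ((2, true) :: (2, true) :: (0, true) :: (0, true) :: W) := by
        simp [full, gc, gi, winv]
      rw [e1, e2]
      have key : ∀ (A B : Word 3), ev w (id : Fin 4 → Fin 4) (A ++ (0, true) :: (2, true) :: B) =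
          ev w (id : Fin 4 → Fin 4) (A ++ (2, true) :: (0, true) :: B) :=
        fun A B => ev_far w (id : Fin 4 → Fin 4) A B 0 2 true true (by decide)
      have k1 := key (U ++ [(0, true)]) ((2, true) :: W)
      have k2 := key U ((0, true) :: (2, true) :: W)
      have k3 := key (U ++ [(2, true), (0, true)]) W
      have k4 := key (U ++ [(2, true)]) ((0, true) :: W)
      simp only [List.append_assoc, List.cons_append, List.nil_append] at k1 k2 k3 k4
      rw [k1, k2, k3, k4]
    have h := lg_comm _ _ _ hc M (Ps x) (Ps y)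
    have hPs : Ps (x * br (lg M (Ag 1 - 1)) (lg M (Ag 4 - 1)) * y) =
        Ps x * (lg M (we (full (gc 1) (gi 1)) - 1) * lg M (we (full (gc 4) (gi 4)) - 1)) * Ps y -
        Ps x * (lg M (we (full (gc 4) (gi 4)) - 1) * lg M (we (full (gc 1) (gi 1)) - 1)) * Ps y := by
      rw [map_mul, map_mul, br, map_sub, map_mul, map_mul, Ps_lg, Ps_lg, map_sub, map_sub,
        map_one, Ps_Ag, Ps_Ag, mul_sub, sub_mul]
    rw [hFP, hPs, map_sub, h, sub_self]
  rw [D_theElt _ (dcnt_mul (cnt i j) (cnt_mul i j))]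
  rw [D_L i j hij, D_L i j hij, D_L i j hij, D_L i j hij, D_L i j hij]
  have br0 : ∀ x : MonoidAlgebra ℂ GM, br x 0 = 0 := by intro x; simp [br]
  have br0' : ∀ x : MonoidAlgebra ℂ GM, br 0 x = 0 := by intro x; simp [br]
  have hcases : (i, j) = pr 0 ∨ (i, j) = pr 1 ∨ (i, j) = pr 2 ∨ (i, j) = pr 3 ∨ (i, j) = pr 4 ∨
      (∀ g, (i, j) ≠ pr g) := by
    revert i j
    decide
  have hne : ∀ g h : Fin 5, (i, j) = pr g → g ≠ h → ¬ ((i, j) = pr h) := by
    revert i j
    decide
  rcases hcases with h | h | h | h | h | h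
  · rw [if_pos h, if_neg (hne 0 1 h (by decide)), if_neg (hne 0 2 h (by decide)),
      if_neg (hne 0 3 h (by decide)), if_neg (hne 0 4 h (by decide))]
    simp only [br0, br0', mul_zero, zero_mul, add_zero, sub_zero]
    exact core_a F hT _ _ _ _ _ (hR 0)
  · rw [if_pos h, if_neg (hne 1 0 h (by decide)), if_neg (hne 1 2 h (by decide)),
      if_neg (hne 1 3 h (by decide)), if_neg (hne 1 4 h (by decide))]
    simp only [br0, br0', mul_zero, zero_mul, add_zero, sub_zero, zero_add]
    exact core_b F _ _ _ _ _ (hR 1)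
  · rw [if_pos h, if_neg (hne 2 0 h (by decide)), if_neg (hne 2 1 h (by decide)),
      if_neg (hne 2 3 h (by decide)), if_neg (hne 2 4 h (by decide))]
    simp only [br0, br0', mul_zero, zero_mul, add_zero, sub_zero, zero_add]
    exact core_c F hT _ _ _ _ _ (hR 2) hbe
  · rw [if_pos h, if_neg (hne 3 0 h (by decide)), if_neg (hne 3 1 h (by decide)),
      if_neg (hne 3 2 h (by decide)), if_neg (hne 3 4 h (by decide))]
    simp only [br0, br0', mul_zero, zero_mul, add_zero, sub_zero, zero_add]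
    exact core_d F _ _ _ _ _ (hR 3)
  · rw [if_pos h, if_neg (hne 4 0 h (by decide)), if_neg (hne 4 1 h (by decide)),
      if_neg (hne 4 2 h (by decide)), if_neg (hne 4 3 h (by decide))]
    simp only [br0, br0', mul_zero, zero_mul, add_zero, sub_zero, zero_add]
    exact core_e F _ _ _ _ _ (hR 4)
  · rw [if_neg (h 0), if_neg (h 1), if_neg (h 2), if_neg (h 3), if_neg (h 4)]
    simp [br]

end Pool.Agent.V11208.FT
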