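import Pool.Agent.V11208.FT.Inv
import Pool.Agent.V11208.FT.Lk

/-!
# Vanishing of the Conway function on algebraically split links
-/

namespace Pool.Agent.V11208.FT

open Matrix

section inversions

variable {m : ℕ} (k l : Fin m) {n : ℕ}

/-- number of inversions -/
def inv (ell : Fin (n + 1) → Fin m) : ℤ :=
  ∑ a, ∑ b, if a < b ∧ ell a = k ∧ ell b = l then 1 else 0

theorem swap_lt (i : Fin n) (a b : Fin (n + 1)) :
    (if adj i a < adj i b then (1 : ℤ) else 0) = (if a < b then 1 else 0)
      + (if a = i.succ ∧ b = i.castSucc then 1 else 0)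
      - (if a = i.castSucc ∧ b = i.succ then 1 else 0) := by
  unfold adj
  rw [Equiv.swap_apply_def, Equiv.swap_apply_def]
  simp only [Fin.ext_iff, Fin.lt_def, Fin.val_succ, Fin.val_castSucc]
  by_cases h1 : (a : ℕ) = i
  · by_cases h2 : (b : ℕ) = i
    · simp [h1, h2]
    · by_cases h3 : (b : ℕ) = i + 1
      · simp [h1, h3]
      · simp only [h1, h2, h3, if_true, if_false, Fin.val_succ, Fin.val_castSucc]
        have : ((i : ℕ) + 1 < b) ↔ ((i : ℕ) < b) := by omega
        simp [this]
  · by_cases h1' : (a : ℕ) = i + 1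
    · by_cases h2 : (b : ℕ) = i
      · simp [h1', h2]
      · by_cases h3 : (b : ℕ) = i + 1
        · simp [h1', h3]
        · simp only [h1', h2, h3, if_true, if_false, Fin.val_succ, Fin.val_castSucc]
          have : ((i : ℕ) + 1 < b) ↔ ((i : ℕ) < b) := by omega
          simp [this]
    · by_cases h2 : (b : ℕ) = i
      · simp only [h1, h1', h2, if_true, if_false, Fin.val_succ, Fin.val_castSucc]
        have : ((a : ℕ) < (i : ℕ) + 1) ↔ ((a : ℕ) < i) := by omega
        simp [this]
      · by_cases h3 : (b : ℕ) = i + 1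
        · simp only [h1, h1', h2, h3, if_true, if_false, Fin.val_succ, Fin.val_castSucc]
          have : ((a : ℕ) < (i : ℕ) + 1) ↔ ((a : ℕ) < i) := by omega
          simp [this]
        · simp [h1, h1', h2, h3]

theorem inv_adj (i : Fin n) (ell : Fin (n + 1) → Fin m) :
    inv k l (ell ∘ adj i) = inv k l ell
      + (if ell i.succ = k ∧ ell i.castSucc = l then 1 else 0)
      - (if ell i.castSucc = k ∧ ell i.succ = l then 1 else 0) := by
  have hss : ∀ x, adj i (adj i x) = x := by intro x; simp [adj]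
  have h1 : inv k l (ell ∘ adj i) =
      ∑ a, ∑ b, if adj i a < adj i b ∧ ell a = k ∧ ell b = l then (1 : ℤ) else 0 := by
    unfold inv
    rw [← Equiv.sum_comp (adj i)]
    apply Finset.sum_congr rfl
    intro a _
    rw [← Equiv.sum_comp (adj i)]
    apply Finset.sum_congr rfl
    intro b _
    simp only [Function.comp_apply, hss]
  have h2 : ∀ a b, (if adj i a < adj i b ∧ ell a = k ∧ ell b = l then (1 : ℤ) else 0) =
      (if a < b ∧ ell a = k ∧ ell b = l then 1 else 0)
      + (if a = i.succ ∧ b = i.castSucc then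
          (if ell i.succ = k ∧ ell i.castSucc = l then 1 else 0) else 0)
      - (if a = i.castSucc ∧ b = i.succ then
          (if ell i.castSucc = k ∧ ell i.succ = l then 1 else 0) else 0) := by
    intro a b
    have h := swap_lt i a b
    by_cases hab : ell a = k ∧ ell b = l
    · have e1 : (if adj i a < adj i b ∧ ell a = k ∧ ell b = l then (1 : ℤ) else 0)
          = if adj i a < adj i b then (1 : ℤ) else 0 := by simp [hab]
      have e2 : (if a < b ∧ ell a = k ∧ ell b = l then (1 : ℤ) else 0)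
          = if a < b then (1 : ℤ) else 0 := by simp [hab]
      rw [e1, e2, h]
      congr 1
      · congr 1
        by_cases hh : a = i.succ ∧ b = i.castSucc
        · obtain ⟨rfl, rfl⟩ := hh
          simp [hab]
        · simp [hh]
      · by_cases hh : a = i.castSucc ∧ b = i.succ
        · obtain ⟨rfl, rfl⟩ := hh
          simp [hab]
        · simp [hh]
    · have e1 : (if adj i a < adj i b ∧ ell a = k ∧ ell b = l then (1 : ℤ) else 0) = 0 := by
        rw [if_neg]; intro h'; exact hab h'.2
      have e2 : (if a < b ∧ ell a = k ∧ ell b = l then (1 : ℤ) else 0) = 0 := by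
        rw [if_neg]; intro h'; exact hab h'.2
      rw [e1, e2]
      have e3 : (if a = i.succ ∧ b = i.castSucc then
          (if ell i.succ = k ∧ ell i.castSucc = l then (1 : ℤ) else 0) else 0) = 0 := by
        by_cases hh : a = i.succ ∧ b = i.castSucc
        · obtain ⟨rfl, rfl⟩ := hh
          simp [hab]
        · simp [hh]
      have e4 : (if a = i.castSucc ∧ b = i.succ then
          (if ell i.castSucc = k ∧ ell i.succ = l then (1 : ℤ) else 0) else 0) = 0 := by
        by_cases hh : a = i.castSucc ∧ b = i.succ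
        · obtain ⟨rfl, rfl⟩ := hh
          simp [hab]
        · simp [hh]
      rw [e3, e4]
      ring
  rw [h1]
  simp only [h2, Finset.sum_sub_distrib, Finset.sum_add_distrib]
  have h3 : ∀ (c d : Fin (n + 1)) (z : ℤ), (∑ a, ∑ b, if a = c ∧ b = d then z else 0) = z := by
    intro c d z
    rw [Finset.sum_eq_single c, Finset.sum_eq_single d]
    · simp
    · intro b _ hb; simp [hb]
    · simp
    · intro a _ ha
      apply Finset.sum_eq_zero
      intro b _
      simp [ha]
    · simp
  rw [h3, h3]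
  rfl

/-- first order term -/
def tau (x : Letter n) (ell : Fin (n + 1) → Fin m) : ℤ :=
  if x.2 then -(if ell x.1.castSucc = k ∧ ell x.1.succ = l then 1 else 0)
  else (if ell x.1.succ = k ∧ ell x.1.castSucc = l then 1 else 0)

/-- first order term of a word -/
def tt : Word n → (Fin (n + 1) → Fin m) → ℤ
  | [], _ => 0
  | x :: w, ell => tau k l x ell + tt w (ell ∘ adj x.1)

theorem tt_cross (hkl : k ≠ l) (w : Word n) (ell : Fin (n + 1) → Fin m) :
    2 * tt k l w ell + cross k l w ell = inv k l (ell ∘ perm w) - inv k l ell := by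
  induction w generalizing ell with
  | nil => simp [tt, cross, perm]
  | cons x w ih =>
    have h := ih (ell ∘ adj x.1)
    have h1 : (ell ∘ adj x.1) ∘ perm w = ell ∘ perm (x :: w) := rfl
    rw [h1] at h
    rw [tt, cross_cons]
    have h2 := inv_adj k l x.1 ell
    have h3 : 2 * tau k l x ell + cl k l x ell =
        (if ell x.1.succ = k ∧ ell x.1.castSucc = l then 1 else 0)
      - (if ell x.1.castSucc = k ∧ ell x.1.succ = l then 1 else 0) := by
      obtain ⟨i, e⟩ := x
      simp only [tau, cl]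
      by_cases a1 : ell i.castSucc = k ∧ ell i.succ = l
      · have a2 : ¬ (ell i.succ = k ∧ ell i.castSucc = l) := by
          rintro ⟨b1, b2⟩; exact hkl (b1.symm.trans a1.2)
        have a3 : ¬ (ell i.castSucc = l ∧ ell i.succ = k) := fun h => a2 ⟨h.2, h.1⟩
        rw [if_pos a1, if_neg a2, if_pos (Or.inl a1)]
        cases e <;> simp
      · by_cases a2 : ell i.succ = k ∧ ell i.castSucc = l
        · rw [if_neg a1, if_pos a2, if_pos (Or.inr ⟨a2.2, a2.1⟩)]
          cases e <;> simp
        · have a3 : ¬ ((ell i.castSucc = k ∧ ell i.succ = l) ∨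
              (ell i.castSucc = l ∧ ell i.succ = k)) := by
            rintro (h' | h')
            · exact a1 h'
            · exact a2 ⟨h'.2, h'.1⟩
          rw [if_neg a1, if_neg a2, if_neg a3]
          cases e <;> simp
    linarith

theorem tt_zero (hkl : k ≠ l) (w : Word n) (ell : Fin (n + 1) → Fin m) (h : Closes w ell)
    (h0 : cross k l w ell = 0) : tt k l w ell = 0 := by
  have := tt_cross k l hkl w ell
  rw [closes_comp h, h0] at this
  omega

end inversions

section expansion

variable {m : ℕ} {n : ℕ}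

/-- indicator of a label -/
noncomputable def chi (k : Fin m) (ell : Fin (n + 1) → Fin m) : Fin (n + 1) → PowerSeries ℂ :=
  fun a => if ell a = k then 1 else 0

theorem chi_adj (k : Fin m) (ell : Fin (n + 1) → Fin m) (i : Fin n) :
    chi k (ell ∘ adj i) = chi k ell +
      (chi k ell i.succ - chi k ell i.castSucc) • (qv (PowerSeries ℂ) i) := by
  funext a
  have h0 : chi k (ell ∘ adj i) a = chi k ell (Equiv.swap i.castSucc i.succ a) := rfl
  rw [h0]
  simp only [Pi.add_apply, Pi.smul_apply, smul_eq_mul, qv, Pi.sub_apply]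
  by_cases h1 : a = i.castSucc
  · subst h1
    have : (i.castSucc : Fin (n + 1)) ≠ i.succ := by simp [Fin.ext_iff]
    rw [Equiv.swap_apply_left, Pi.single_eq_same, Pi.single_eq_of_ne this]
    ring
  · by_cases h2 : a = i.succ
    · subst h2
      rw [Equiv.swap_apply_right, Pi.single_eq_same, Pi.single_eq_of_ne h1]
      ring
    · rw [Equiv.swap_apply_of_ne_of_ne h1 h2, Pi.single_eq_of_ne h1, Pi.single_eq_of_ne h2]
      ring

/-- the deviation -/
noncomputable def dev (k : Fin m) (x : Letter n) (ell : Fin (n + 1) → Fin m) : PowerSeries ℂ :=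
  yv sU x.2 * (chi k ell x.1.succ - (sU : PowerSeries ℂ) ^ 2 * chi k ell x.1.castSucc)
    - (chi k ell x.1.succ - chi k ell x.1.castSucc)

theorem chi_bur (k : Fin m) (x : Letter n) (ell : Fin (n + 1) → Fin m) :
    chi k ell ᵥ* bur sU x = chi k (ell ∘ adj x.1) + dev k x ell • qv (PowerSeries ℂ) x.1 := by
  have h1 : chi k ell ⬝ᵥ pv sU x.1 =
      chi k ell x.1.succ - (sU : PowerSeries ℂ) ^ 2 * chi k ell x.1.castSucc := by
    rw [pv, dotProduct_sub, dotProduct_single, dotProduct_single]
    ring
  rw [bur, vecMul_add, vecMul_one, vecMul_smul, vecMul_vecMulVec, h1, chi_adj, dev]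
  funext a
  simp only [Pi.add_apply, Pi.smul_apply, smul_eq_mul]
  ring

theorem sU_sq : (sU : PowerSeries ℂ) ^ 2 = 1 + 2 * PowerSeries.X + PowerSeries.X ^ 2 := by
  rw [sU_val]; ring

theorem sU_inv_sq : ∃ r : PowerSeries ℂ, ((sU⁻¹ : (PowerSeries ℂ)ˣ) : PowerSeries ℂ) ^ 2 =
    1 - 2 * PowerSeries.X + PowerSeries.X ^ 2 * r := by
  have h : ((sU : PowerSeries ℂ)) * ((sU⁻¹ : (PowerSeries ℂ)ˣ) : PowerSeries ℂ) = 1 :=
    Units.mul_inv _
  set y := ((sU⁻¹ : (PowerSeries ℂ)ˣ) : PowerSeries ℂ) with hy
  rw [sU_val] at h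
  refine ⟨y ^ 2 * (3 + 2 * PowerSeries.X), ?_⟩
  have h2 : (1 + PowerSeries.X) ^ 2 * y ^ 2 = 1 := by
    rw [← mul_pow, h, one_pow]
  linear_combination (1 - 2 * PowerSeries.X : PowerSeries ℂ) * h2

theorem dev_eq (k : Fin m) (x : Letter n) (ell : Fin (n + 1) → Fin m) :
    ∃ r : PowerSeries ℂ, dev k x ell = -2 * PowerSeries.X *
      (if x.2 then chi k ell x.1.castSucc else chi k ell x.1.succ) + PowerSeries.X ^ 2 * r := by
  obtain ⟨r, hr⟩ := sU_inv_sq
  have h : ((sU : PowerSeries ℂ)) * ((sU⁻¹ : (PowerSeries ℂ)ˣ) : PowerSeries ℂ) = 1 :=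
    Units.mul_inv _
  have h2 : (sU : PowerSeries ℂ) ^ 2 * ((sU⁻¹ : (PowerSeries ℂ)ˣ) : PowerSeries ℂ) ^ 2 = 1 := by
    rw [← mul_pow, h, one_pow]
  obtain ⟨i, e⟩ := x
  cases e
  · refine ⟨r * chi k ell i.succ, ?_⟩
    simp only [dev, yv, Bool.false_eq_true, if_false]
    linear_combination (chi k ell i.succ) * hr - (chi k ell i.castSucc) * h2
  · refine ⟨- chi k ell i.castSucc, ?_⟩
    simp only [dev, yv, if_true]
    rw [sU_sq]
    ring

theorem X_dvd_dev (k : Fin m) (x : Letter n) (ell : Fin (n + 1) → Fin m) :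
    PowerSeries.X ∣ dev k x ell := by
  obtain ⟨r, hr⟩ := dev_eq k x ell
  rw [hr]
  exact ⟨-2 * (if x.2 then chi k ell x.1.castSucc else chi k ell x.1.succ)
    + PowerSeries.X * r, by ring⟩

/-- vectors divisible by `X` -/
def Small (v : Fin (n + 1) → PowerSeries ℂ) : Prop := ∀ a, PowerSeries.X ∣ v a

theorem Small.dot {v : Fin (n + 1) → PowerSeries ℂ} (h : Small v)
    (w : Fin (n + 1) → PowerSeries ℂ) : PowerSeries.X ∣ v ⬝ᵥ w :=
  Finset.dvd_sum fun a _ => dvd_mul_of_dvd_left (h a) _

theorem Small.dot' {v : Fin (n + 1) → PowerSeries ℂ} (h : Small v)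
    (w : Fin (n + 1) → PowerSeries ℂ) : PowerSeries.X ∣ w ⬝ᵥ v :=
  Finset.dvd_sum fun a _ => dvd_mul_of_dvd_right (h a) _

theorem Small.vecMul {v : Fin (n + 1) → PowerSeries ℂ} (h : Small v)
    (A : Matrix (Fin (n + 1)) (Fin (n + 1)) (PowerSeries ℂ)) : Small (v ᵥ* A) :=
  fun a => h.dot _

theorem Small.mulVec {v : Fin (n + 1) → PowerSeries ℂ} (h : Small v)
    (A : Matrix (Fin (n + 1)) (Fin (n + 1)) (PowerSeries ℂ)) : Small (A *ᵥ v) :=
  fun a => h.dot' _

theorem Small.add {v w : Fin (n + 1) → PowerSeries ℂ} (h : Small v) (h' : Small w) :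
    Small (v + w) := fun a => dvd_add (h a) (h' a)

theorem row_small (k : Fin m) (w : Word n) (ell : Fin (n + 1) → Fin m) :
    Small (chi k ell ᵥ* Bur sU w - chi k (ell ∘ perm w)) := by
  induction w generalizing ell with
  | nil => intro a; simp [Bur, perm]
  | cons x w ih =>
    have h1 : chi k ell ᵥ* Bur sU (x :: w) - chi k (ell ∘ perm (x :: w)) =
        (chi k (ell ∘ adj x.1) ᵥ* Bur sU w - chi k ((ell ∘ adj x.1) ∘ perm w))
          + (dev k x ell • qv (PowerSeries ℂ) x.1) ᵥ* Bur sU w := by
      rw [Bur, ← vecMul_vecMul, chi_bur, add_vecMul]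
      have : (ell ∘ adj x.1) ∘ perm w = ell ∘ perm (x :: w) := rfl
      rw [this]
      abel
    rw [h1]
    apply (ih _).add
    apply Small.vecMul
    intro a
    exact dvd_mul_of_dvd_left (X_dvd_dev k x ell) _

theorem bur_chi (l : Fin m) (x : Letter n) (ell : Fin (n + 1) → Fin m) :
    Small (bur sU x *ᵥ chi l (ell ∘ adj x.1) - chi l ell) := by
  obtain ⟨i, e⟩ := x
  have hq : qv (PowerSeries ℂ) i ⬝ᵥ chi l (ell ∘ adj i) =
      chi l ell i.succ - chi l ell i.castSucc := by
    rw [qv, sub_dotProduct, single_dotProduct, single_dotProduct]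
    simp [chi, adj]
  have h1 : bur sU (i, e) *ᵥ chi l (ell ∘ adj i) - chi l ell =
      (chi l ell i.succ - chi l ell i.castSucc) • (qv (PowerSeries ℂ) i + yv sU e • pv sU i) := by
    rw [bur, add_mulVec, one_mulVec, smul_mulVec, vecMulVec_mulVec, hq, chi_adj]
    funext a
    simp only [Pi.add_apply, Pi.sub_apply, Pi.smul_apply, smul_eq_mul, MulOpposite.smul_eq_mul_unop,
      MulOpposite.unop_op]
    ring
  show Small (bur sU (i, e) *ᵥ chi l (ell ∘ adj i) - chi l ell)
  rw [h1]
  have h2 : Small (qv (PowerSeries ℂ) i + yv sU e • pv sU i) := by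
    intro a
    rw [PowerSeries.X_dvd_iff]
    have h3 : PowerSeries.constantCoeff (R := ℂ) (yv sU e) = 1 := by
      cases e
      · obtain ⟨r, hr⟩ := sU_inv_sq
        simp only [yv, Bool.false_eq_true, if_false, hr]
        simp
      · simp [yv]
    simp only [Pi.add_apply, Pi.smul_apply, smul_eq_mul, map_add, map_mul, h3, qv, pv, Pi.sub_apply,
      map_sub, sU_sq, Pi.single_apply]
    split_ifs <;> simp
  intro a
  exact dvd_mul_of_dvd_right (h2 a) _

theorem col_small (l : Fin m) (w : Word n) (ell : Fin (n + 1) → Fin m) :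
    Small (Bur sU w *ᵥ chi l (ell ∘ perm w) - chi l ell) := by
  induction w generalizing ell with
  | nil => intro a; simp [Bur, perm]
  | cons x w ih =>
    have h1 : Bur sU (x :: w) *ᵥ chi l (ell ∘ perm (x :: w)) - chi l ell =
        bur sU x *ᵥ (Bur sU w *ᵥ chi l ((ell ∘ adj x.1) ∘ perm w) - chi l (ell ∘ adj x.1))
          + (bur sU x *ᵥ chi l (ell ∘ adj x.1) - chi l ell) := by
      rw [Bur, ← mulVec_mulVec, mulVec_sub]
      have : (ell ∘ adj x.1) ∘ perm w = ell ∘ perm (x :: w) := rfl
      rw [this]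
      abel
    rw [h1]
    exact ((ih _).mulVec _).add (bur_chi l x ell)

/-- Second order expansion. -/
theorem second_order (k l : Fin m) (hkl : k ≠ l) (w : Word n) (ell : Fin (n + 1) → Fin m) :
    PowerSeries.X ^ 2 ∣ chi k ell ⬝ᵥ (Bur sU w *ᵥ chi l (ell ∘ perm w))
      - 2 * PowerSeries.X * ((tt k l w ell : ℤ) : PowerSeries ℂ) := by
  induction w generalizing ell with
  | nil =>
    have : chi k ell ⬝ᵥ (Bur sU [] *ᵥ chi l (ell ∘ perm ([] : Word n))) = 0 := by
      simp only [Bur, one_mulVec, perm]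
      apply Finset.sum_eq_zero
      intro a _
      have h0 : chi l (ell ∘ (1 : Equiv.Perm (Fin (n + 1)))) a = chi l ell a := rfl
      rw [h0]
      by_cases h : ell a = k
      · have : chi l ell a = 0 := by
          unfold chi; rw [if_neg (by rw [h]; exact hkl)]
        rw [this, mul_zero]
      · have : chi k ell a = 0 := by
          unfold chi; rw [if_neg h]
        rw [this, zero_mul]
    rw [this]
    simp [tt]
  | cons x w ih =>
    have hperm : (ell ∘ adj x.1) ∘ perm w = ell ∘ perm (x :: w) := rfl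
    have h := ih (ell ∘ adj x.1)
    rw [hperm] at h
    set V := Bur sU w *ᵥ chi l (ell ∘ perm (x :: w)) with hV
    have h1 : chi k ell ⬝ᵥ (Bur sU (x :: w) *ᵥ chi l (ell ∘ perm (x :: w))) =
        chi k (ell ∘ adj x.1) ⬝ᵥ V + dev k x ell * (V x.1.castSucc - V x.1.succ) := by
      rw [Bur, ← mulVec_mulVec, ← hV, dotProduct_mulVec, chi_bur, add_dotProduct,
        smul_dotProduct, smul_eq_mul]
      congr 2
      rw [qv, sub_dotProduct, single_dotProduct, single_dotProduct, one_mul, one_mul]
    obtain ⟨r, hr⟩ := dev_eq k x ell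
    have hsm := col_small l w (ell ∘ adj x.1)
    rw [hperm, ← hV] at hsm
    obtain ⟨c1, hc1⟩ := hsm x.1.castSucc
    obtain ⟨c2, hc2⟩ := hsm x.1.succ
    obtain ⟨d, hd⟩ := h
    have e1 : chi l (ell ∘ adj x.1) x.1.castSucc = chi l ell x.1.succ := by
      simp [chi, adj]
    have e2 : chi l (ell ∘ adj x.1) x.1.succ = chi l ell x.1.castSucc := by
      simp [chi, adj]
    rw [Pi.sub_apply, e1, sub_eq_iff_eq_add] at hc1
    rw [Pi.sub_apply, e2, sub_eq_iff_eq_add] at hc2
    have htau : (if x.2 then chi k ell x.1.castSucc else chi k ell x.1.succ) *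
        (chi l ell x.1.succ - chi l ell x.1.castSucc) =
          -((tau k l x ell : ℤ) : PowerSeries ℂ) := by
      obtain ⟨i, e⟩ := x
      simp only [tau, chi]
      by_cases a1 : ell i.castSucc = k
      · have a1' : ¬ ell i.castSucc = l := by rw [a1]; exact hkl
        by_cases a2 : ell i.succ = l
        · have a2' : ¬ ell i.succ = k := by rw [a2]; exact hkl.symm
          cases e <;> simp [a1, a2, hkl, hkl.symm]
        · cases e <;> simp [a1, a2, hkl]
      · by_cases a2 : ell i.succ = k
        · by_cases a3 : ell i.castSucc = l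
          · cases e <;> simp [a2, a3, hkl, hkl.symm]
          · cases e <;> simp [a1, a2, a3, hkl]
        · cases e <;> simp [a1, a2]
    refine ⟨d + r * (V x.1.castSucc - V x.1.succ) - 2 *
      (if x.2 then chi k ell x.1.castSucc else chi k ell x.1.succ) * (c1 - c2), ?_⟩
    rw [h1, hr, tt]
    push_cast
    linear_combination hd + (-2 * PowerSeries.X *
      (if x.2 then chi k ell x.1.castSucc else chi k ell x.1.succ)) * (hc1 - hc2)
      + (-2 * PowerSeries.X) * htau

end expansion

end Pool.Agent.V11208.FT
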