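import Pool.Agent.V11208.FT.Split

/-!
# Divisibility for algebraically split links
-/

namespace Pool.Agent.V11208.FT

open Matrix

section

variable {m n : ℕ}

/-- change of basis adapted to the components -/
noncomputable def ab (r : Fin m → Fin (n + 1)) (ell : Fin (n + 1) → Fin m) :
    Matrix (Fin (n + 1)) (Fin (n + 1)) (PowerSeries ℂ) :=
  Matrix.of fun a => if r (ell a) = a then chi (ell a) ell else Pi.single a 1

theorem ab_row (r : Fin m → Fin (n + 1)) (ell : Fin (n + 1) → Fin m) (a : Fin (n + 1)) :
    ab r ell a = if r (ell a) = a then chi (ell a) ell else Pi.single a 1 := rfl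

theorem ab_unit (r : Fin m → Fin (n + 1)) (ell : Fin (n + 1) → Fin m) :
    IsUnit (ab r ell) := by
  have hU : (ab r ell - 1) * (ab r ell - 1) = 0 := by
    refine Matrix.ext fun a c => ?_
    rw [Matrix.mul_apply, Matrix.zero_apply]
    apply Finset.sum_eq_zero
    intro b _
    have h1 : ∀ a b, (ab r ell - 1) a b = if r (ell a) = a ∧ ell b = ell a ∧ a ≠ b then 1 else 0 := by
      intro a b
      rw [Matrix.sub_apply, ab_row]
      by_cases ha : r (ell a) = a
      · rw [if_pos ha]
        by_cases hab : a = b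
        · subst hab
          simp [chi]
        · by_cases hl : ell b = ell a
          · simp [chi, ha, hab, hl, Matrix.one_apply]
          · simp [chi, ha, hab, hl, Matrix.one_apply]
      · rw [if_neg ha]
        by_cases hab : a = b
        · subst hab
          simp
        · simp [ha, hab, Matrix.one_apply, Pi.single_apply, Ne.symm hab, eq_comm]
    rw [h1, h1]
    by_cases h2 : r (ell a) = a ∧ ell b = ell a ∧ a ≠ b
    · have h3 : ¬ (r (ell b) = b ∧ ell c = ell b ∧ b ≠ c) := by
        rintro ⟨h4, _, _⟩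
        apply h2.2.2
        rw [← h4, h2.2.1, h2.1]
      rw [if_neg h3, mul_zero]
    · rw [if_neg h2, zero_mul]
  have h1 : ab r ell * (1 - (ab r ell - 1)) = 1 := by
    have : ab r ell = 1 + (ab r ell - 1) := by abel
    conv_lhs => rw [this]
    rw [show (1 + (ab r ell - 1) - 1) = ab r ell - 1 by abel, Matrix.add_mul, Matrix.one_mul,
      Matrix.mul_sub, Matrix.mul_one, hU]
    abel
  have h2 : (1 - (ab r ell - 1)) * ab r ell = 1 := by
    have : ab r ell = 1 + (ab r ell - 1) := by abel
    conv_lhs => rw [this]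
    rw [show (1 + (ab r ell - 1) - 1) = ab r ell - 1 by abel, Matrix.mul_add, Matrix.mul_one,
      Matrix.sub_mul, Matrix.one_mul, hU]
    abel
  exact ⟨⟨_, _, h1, h2⟩, rfl⟩

theorem chi_M_small (w : Word n) (ell : Fin (n + 1) → Fin m) (h : Closes w ell) (k : Fin m) :
    Small (chi k ell ᵥ* (1 - Bur sU w)) := by
  intro a
  have h1 := row_small k w ell a
  rw [closes_comp h] at h1
  rw [vecMul_sub, vecMul_one]
  have : (chi k ell - chi k ell ᵥ* Bur sU w) a = -((chi k ell ᵥ* Bur sU w - chi k ell) a) := by
    simp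
  rw [this]
  exact (dvd_neg).mpr h1

theorem M_chi_small (w : Word n) (ell : Fin (n + 1) → Fin m) (h : Closes w ell) (k : Fin m) :
    Small ((1 - Bur sU w) *ᵥ chi k ell) := by
  intro a
  have h1 := col_small k w ell a
  rw [closes_comp h] at h1
  rw [sub_mulVec, one_mulVec]
  have : (chi k ell - Bur sU w *ᵥ chi k ell) a = -((Bur sU w *ᵥ chi k ell - chi k ell) a) := by
    simp
  rw [this]
  exact (dvd_neg).mpr h1

theorem chi_M_chi_off (w : Word n) (ell : Fin (n + 1) → Fin m) (h : Closes w ell) (k l : Fin m)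
    (hkl : k ≠ l) (h0 : cross k l w ell = 0) :
    PowerSeries.X ^ 2 ∣ chi k ell ⬝ᵥ ((1 - Bur sU w) *ᵥ chi l ell) := by
  have h1 := second_order k l hkl w ell
  rw [closes_comp h, tt_zero k l hkl w ell h h0] at h1
  have h2 : chi k ell ⬝ᵥ chi l ell = 0 := by
    apply Finset.sum_eq_zero
    intro a _
    by_cases h : ell a = k
    · have : chi l ell a = 0 := by
        unfold chi; rw [if_neg (by rw [h]; exact hkl)]
      rw [this, mul_zero]
    · have : chi k ell a = 0 := by
        unfold chi; rw [if_neg h]
      rw [this, zero_mul]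
  rw [sub_mulVec, one_mulVec, dotProduct_sub, h2, zero_sub, dvd_neg]
  simpa using h1

theorem chi_M_chi (w : Word n) (ell : Fin (n + 1) → Fin m) (h : Closes w ell)
    (h0 : ∀ k l, k ≠ l → cross k l w ell = 0) (k l : Fin m) :
    PowerSeries.X ^ 2 ∣ chi k ell ⬝ᵥ ((1 - Bur sU w) *ᵥ chi l ell) := by
  by_cases hkl : k = l
  · subst hkl
    have h1 : ∑ l, chi k ell ⬝ᵥ ((1 - Bur sU w) *ᵥ chi l ell) = 0 := by
      rw [← dotProduct_sum, ← Matrix.mulVec_sum]
      have : ∑ l, chi l ell = fun _ => (1 : PowerSeries ℂ) := by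
        funext a
        rw [Finset.sum_apply]
        simp [chi]
      rw [this, sub_mulVec, one_mulVec, Bur_one, sub_self, dotProduct_zero]
    rw [← Finset.add_sum_erase _ _ (Finset.mem_univ k)] at h1
    rw [eq_neg_of_add_eq_zero_left h1, dvd_neg]
    apply Finset.dvd_sum
    intro l hl
    have hne : k ≠ l := (Finset.ne_of_mem_erase hl).symm
    exact chi_M_chi_off w ell h k l hne (h0 k l hne)
  · exact chi_M_chi_off w ell h k l hkl (h0 k l hkl)

/-- For an algebraically split closure with `m` components, the Conway function is divisible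
by `x ^ (2 (m - 1))`. -/
theorem split_dvd (w : Word n) (ell : Fin (n + 1) → Fin m) (h : Closes w ell)
    (h0 : ∀ k l, k ≠ l → cross k l w ell = 0) :
    PowerSeries.X ^ (2 * (m - 1)) ∣ conw w := by
  classical
  -- representatives
  choose r₀ hr₀ using h.1
  set r : Fin m → Fin (n + 1) := Function.update r₀ (ell 0) 0 with hr
  have hrl : ∀ k, ell (r k) = k := by
    intro k
    by_cases hk : k = ell 0
    · rw [hk, hr, Function.update_self]
    · rw [hr, Function.update_of_ne hk]; exact hr₀ k
  have hr0 : r (ell 0) = 0 := by rw [hr, Function.update_self]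
  set A := ab r ell with hA
  have hAdet : IsUnit A.det := (Matrix.isUnit_iff_isUnit_det A).mp (ab_unit r ell)
  set K : Fin (n + 1) → PowerSeries ℂ :=
    fun a => if r (ell a) = a ∧ a ≠ 0 then PowerSeries.X else 1 with hK
  have hcol : A *ᵥ Pi.single 0 1 = Pi.single 0 1 := by
    funext a
    have h1 : (A *ᵥ Pi.single 0 1) a = A a 0 := by simp
    rw [h1, hA, ab_row]
    by_cases ha : r (ell a) = a
    · rw [if_pos ha]
      by_cases ha0 : a = 0
      · subst ha0
        simp [chi]
      · have : ell 0 ≠ ell a := by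
          intro h'
          apply ha0
          rw [← ha, ← h', hr0]
        rw [Pi.single_eq_of_ne ha0, chi, if_neg this]
    · rw [if_neg ha]
      have ha0 : a ≠ 0 := by
        rintro rfl; exact ha hr0
      rw [Pi.single_eq_of_ne ha0, Pi.single_eq_of_ne ha0.symm]
  have hE : A * e00 (PowerSeries ℂ) n * Aᵀ = e00 (PowerSeries ℂ) n := by
    rw [e00, mul_vecMulVec, hcol, vecMulVec_mul, vecMul_transpose, hcol]
  have hN : A * (1 - Bur sU w + e00 (PowerSeries ℂ) n) * Aᵀ =
      A * (1 - Bur sU w) * Aᵀ + e00 (PowerSeries ℂ) n := by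
    rw [Matrix.mul_add, Matrix.add_mul, hE]
  have hentry : ∀ a b, (A * (1 - Bur sU w) * Aᵀ) a b = A a ⬝ᵥ ((1 - Bur sU w) *ᵥ A b) := by
    intro a b
    rw [dotProduct_mulVec, ← Matrix.mul_apply_eq_vecMul, Matrix.mul_apply]
    rfl
  have hdiv : ∀ a b, K a * K b ∣ (A * (1 - Bur sU w + e00 (PowerSeries ℂ) n) * Aᵀ) a b := by
    intro a b
    rw [hN, Matrix.add_apply, hentry]
    by_cases ha : r (ell a) = a ∧ a ≠ 0
    · have he : e00 (PowerSeries ℂ) n a b = 0 := by
        rw [e00, vecMulVec_apply, Pi.single_eq_of_ne ha.2, zero_mul]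
      rw [he, add_zero]
      have hAa : A a = chi (ell a) ell := by rw [hA, ab_row, if_pos ha.1]
      have hKa : K a = PowerSeries.X := by rw [hK]; simp only; rw [if_pos ha]
      by_cases hb : r (ell b) = b ∧ b ≠ 0
      · have hAb : A b = chi (ell b) ell := by rw [hA, ab_row, if_pos hb.1]
        have hKb : K b = PowerSeries.X := by rw [hK]; simp only; rw [if_pos hb]
        rw [hAa, hAb, hKa, hKb, ← pow_two]
        exact chi_M_chi w ell h h0 _ _
      · have hKb : K b = 1 := by rw [hK]; simp only; rw [if_neg hb]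
        rw [hAa, hKa, hKb, mul_one, dotProduct_mulVec]
        exact (chi_M_small w ell h _).dot _
    · have hKa : K a = 1 := by rw [hK]; simp only; rw [if_neg ha]
      by_cases hb : r (ell b) = b ∧ b ≠ 0
      · have he : e00 (PowerSeries ℂ) n a b = 0 := by
          rw [e00, vecMulVec_apply, Pi.single_eq_of_ne hb.2, mul_zero]
        have hAb : A b = chi (ell b) ell := by rw [hA, ab_row, if_pos hb.1]
        have hKb : K b = PowerSeries.X := by rw [hK]; simp only; rw [if_pos hb]
        rw [he, add_zero, hKa, hKb, one_mul, hAb]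
        exact (M_chi_small w ell h _).dot' _
      · have hKb : K b = 1 := by rw [hK]; simp only; rw [if_neg hb]
        rw [hKa, hKb, one_mul]
        exact one_dvd _
  choose Nf hNf using hdiv
  have hprod : A * (1 - Bur sU w + e00 (PowerSeries ℂ) n) * Aᵀ =
      Matrix.diagonal K * Matrix.of Nf * Matrix.diagonal K := by
    ext1 a b
    rw [hNf, Matrix.mul_diagonal, Matrix.diagonal_mul, Matrix.of_apply]
    ring
  have hdet := congrArg Matrix.det hprod
  rw [det_mul, det_mul, det_mul, det_mul, det_diagonal, det_transpose] at hdet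
  have hKprod : ∏ a, K a = PowerSeries.X ^ (m - 1) := by
    rw [hK, Finset.prod_ite, Finset.prod_const, Finset.prod_const_one, mul_one]
    congr 1
    have : (Finset.univ.filter fun a : Fin (n + 1) => r (ell a) = a ∧ a ≠ 0) =
        (Finset.univ.erase (ell 0)).image r := by
      ext a
      simp only [Finset.mem_filter, Finset.mem_univ, true_and, Finset.mem_image,
        Finset.mem_erase, and_true]
      constructor
      · rintro ⟨h1, h2⟩
        refine ⟨ell a, ?_, h1⟩
        intro h3
        apply h2
        rw [← h1, h3, hr0]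
      · rintro ⟨k, hk, rfl⟩
        refine ⟨by rw [hrl], ?_⟩
        intro h3
        apply hk
        rw [← hrl k, h3]
    rw [this, Finset.card_image_of_injective _ (Function.LeftInverse.injective hrl),
      Finset.card_erase_of_mem (Finset.mem_univ _), Finset.card_univ, Fintype.card_fin]
  rw [hKprod] at hdet
  have hcc : PowerSeries.X ^ (2 * (m - 1)) ∣ A.det * cc sU w * A.det := by
    have : A.det * cc sU w * A.det = A.det * (1 - Bur sU w + e00 (PowerSeries ℂ) n).det * A.det :=
      rfl
    rw [this, hdet, two_mul, pow_add]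
    exact ⟨(Matrix.of Nf).det, by ring⟩
  have hcc' : PowerSeries.X ^ (2 * (m - 1)) ∣ cc sU w := by
    have h1 := (hAdet.dvd_mul_right (b := cc sU w) (a := PowerSeries.X ^ (2 * (m - 1)))).mp
    rw [mul_comm (A.det) (cc sU w)] at hcc
    exact h1 ((hAdet.dvd_mul_right).mp hcc)
  rw [conw, nab]
  exact dvd_mul_of_dvd_left hcc' _

end

end Pool.Agent.V11208.FT
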