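import Pool.Agent.V11208.FT.Nonmem

/-!
# The value of the invariant on the element of degree five
-/

namespace Pool.Agent.V11208.FT

open MonoidAlgebra

section skein

variable {n : ℕ}

theorem conw_canc : Canc (conw (n := n)) := fun u v i e => nab_cancel sU u v i e

theorem sk (x y : MonoidAlgebra ℂ (WM n)) (i : Fin n) :
    fun_ conw (x * (we [(i, true)] - we [(i, false)]) * y) = zz * fun_ conw (x * y) := by
  induction x using MonoidAlgebra.induction_on with
  | of u =>
    induction y using MonoidAlgebra.induction_on with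
    | of v =>
      rw [of_eq_we, of_eq_we, mul_sub, sub_mul, map_sub, ← we_append, ← we_append, ← we_append,
        ← we_append, ← we_append, fun_we, fun_we, fun_we]
      have := conw_skein (FreeMonoid.toList u) (FreeMonoid.toList v) i
      simpa using this
    | add x y hx hy => rw [mul_add, mul_add, map_add, map_add, hx, hy, mul_add]
    | smul r x hx => rw [mul_smul_comm, mul_smul_comm, map_smul, map_smul, hx, mul_smul_comm]
  | add x y hx hy => simp only [add_mul, map_add, hx, hy, mul_add]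
  | smul r x hx => simp only [smul_mul_assoc, map_smul, hx, mul_smul_comm]

theorem sk2 (x y : MonoidAlgebra ℂ (WM n)) (c : Word n) (i : Fin n) :
    fun_ conw (x * (we (full c i) - 1) * y) = zz * fun_ conw (x * we (half c i) * y) := by
  rw [eqv_full conw conw_canc c i x y, rh_dbl]
  have h1 : x * (we c * ((we [(i, true)] - we [(i, false)]) * (we [(i, true)] * we (winv c)))) * y
      = (x * we c) * (we [(i, true)] - we [(i, false)]) * (we [(i, true)] * we (winv c) * y) := by
    simp only [mul_assoc]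
  have h2 : x * we (half c i) * y = (x * we c) * (we [(i, true)] * we (winv c) * y) := by
    rw [half, we_append, we_append]
    simp only [mul_assoc]
  rw [h1, h2, sk]

/-- the cofactor of the truncated logarithm -/
noncomputable def qg (M : ℕ) (X : MonoidAlgebra ℂ (WM n)) : MonoidAlgebra ℂ (WM n) :=
  ∑ k ∈ Finset.range M, ((-1 : ℂ) ^ k / (k + 1)) • X ^ k

theorem lg_eq (M : ℕ) (X : MonoidAlgebra ℂ (WM n)) : lg M X = X * qg M X := by
  rw [lg, qg, Finset.mul_sum]
  apply Finset.sum_congr rfl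
  intro k _
  rw [mul_smul_comm, pow_succ']

theorem qg_eq (M : ℕ) (X : MonoidAlgebra ℂ (WM n)) : ∃ Y, qg (M + 1) X = 1 + X * Y := by
  refine ⟨∑ k ∈ Finset.range M, ((-1 : ℂ) ^ (k + 1) / ((k + 1 : ℕ) + 1)) • X ^ k, ?_⟩
  rw [qg, Finset.sum_range_succ', Finset.mul_sum, add_comm]
  congr 1
  · simp
  · apply Finset.sum_congr rfl
    intro k _
    rw [mul_smul_comm, ← pow_succ']

/-- half twist times cofactor -/
noncomputable def tq (M : ℕ) (c : Word n) (i : Fin n) : MonoidAlgebra ℂ (WM n) :=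
  we (half c i) * qg M (we (full c i) - 1)

theorem sk3 (M : ℕ) (x y : MonoidAlgebra ℂ (WM n)) (c : Word n) (i : Fin n) :
    fun_ conw (x * lg M (we (full c i) - 1) * y) = zz * fun_ conw (x * tq M c i * y) := by
  rw [lg_eq]
  have h1 : x * ((we (full c i) - 1) * qg M (we (full c i) - 1)) * y =
      x * (we (full c i) - 1) * (qg M (we (full c i) - 1) * y) := by simp only [mul_assoc]
  have h2 : x * tq M c i * y = x * we (half c i) * (qg M (we (full c i) - 1) * y) := by
    rw [tq]; simp only [mul_assoc]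
  rw [h1, h2, sk2]

end skein

/-- the logarithms -/
noncomputable def Lw (M : ℕ) (g : Fin 5) : MonoidAlgebra ℂ (WM 3) :=
  lg M (we (full (gc g) (gi g)) - 1)

/-- modified half twists -/
noncomputable def Tw (M : ℕ) (g : Fin 5) : MonoidAlgebra ℂ (WM 3) := tq M (gc g) (gi g)

theorem mono5 (M : ℕ) (a b c d e : Fin 5) :
    fun_ conw (Lw M a * Lw M b * Lw M c * Lw M d * Lw M e) =
      zz ^ 5 * fun_ conw (Tw M a * Tw M b * Tw M c * Tw M d * Tw M e) := by
  have s1 := sk3 M 1 (Lw M b * Lw M c * Lw M d * Lw M e) (gc a) (gi a)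
  have s2 := sk3 M (Tw M a) (Lw M c * Lw M d * Lw M e) (gc b) (gi b)
  have s3 := sk3 M (Tw M a * Tw M b) (Lw M d * Lw M e) (gc c) (gi c)
  have s4 := sk3 M (Tw M a * Tw M b * Tw M c) (Lw M e) (gc d) (gi d)
  have s5 := sk3 M (Tw M a * Tw M b * Tw M c * Tw M d) 1 (gc e) (gi e)
  change fun_ conw (1 * Lw M a * _) = zz * fun_ conw (1 * Tw M a * _) at s1
  change fun_ conw (_ * Lw M b * _) = zz * fun_ conw (_ * Tw M b * _) at s2
  change fun_ conw (_ * Lw M c * _) = zz * fun_ conw (_ * Tw M c * _) at s3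
  change fun_ conw (_ * Lw M d * _) = zz * fun_ conw (_ * Tw M d * _) at s4
  change fun_ conw (_ * Lw M e * _) = zz * fun_ conw (_ * Tw M e * _) at s5
  simp only [one_mul, mul_one, mul_assoc] at s1 s2 s3 s4 s5 ⊢
  rw [s1, s2, s3, s4, s5]
  ring

/-- constant term functional -/
noncomputable def c0 (w : Word 3) : ℂ := PowerSeries.constantCoeff (R := ℂ) (conw w)

/-- constant coefficient as a linear map -/
noncomputable def ccl : PowerSeries ℂ →ₗ[ℂ] ℂ := PowerSeries.coeff 0

theorem ccl_eq (p : PowerSeries ℂ) : ccl p = PowerSeries.constantCoeff (R := ℂ) p := by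
  rw [ccl, PowerSeries.coeff_zero_eq_constantCoeff]

theorem fun_c0 (P : MonoidAlgebra ℂ (WM 3)) :
    fun_ c0 P = PowerSeries.constantCoeff (R := ℂ) (fun_ conw P) := by
  have h := lin_comp ccl (fun u : WM 3 => conw (FreeMonoid.toList u)) P
  rw [ccl_eq] at h
  have h2 : (fun u : WM 3 => c0 (FreeMonoid.toList u)) =
      fun u : WM 3 => ccl (conw (FreeMonoid.toList u)) := by
    funext u
    rw [ccl_eq]
    rfl
  rw [fun_, fun_, ← h, h2]

theorem eqv_c0 (g : Fin 5) : Eqv (fun_ c0) (we (full (gc g) (gi g)) - 1) 0 := by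
  intro x y
  rw [fun_c0, sk2, map_mul, PowerSeries.X_dvd_iff.mp X_dvd_zz]
  simp

theorem eqv_Tw (M : ℕ) (g : Fin 5) : Eqv (fun_ c0) (Tw (M + 1) g) (we (hlf g)) := by
  obtain ⟨Y, hY⟩ := qg_eq M (we (full (gc g) (gi g)) - 1)
  rw [Tw, tq, hY, hlf]
  have h1 : Eqv (fun_ c0) (1 + (we (full (gc g) (gi g)) - 1) * Y) (1 + 0 * Y) :=
    Eqv.add (Eqv.refl _ _) (Eqv.mul (eqv_c0 g) (Eqv.refl _ _))
  have h2 := Eqv.mul (Eqv.refl (fun_ c0) (we (half (gc g) (gi g)))) h1
  rw [zero_mul, add_zero, mul_one] at h2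
  exact h2

theorem c0_prod (M : ℕ) (a b c d e : Fin 5) :
    PowerSeries.constantCoeff (R := ℂ) (fun_ conw
      (Tw (M + 1) a * Tw (M + 1) b * Tw (M + 1) c * Tw (M + 1) d * Tw (M + 1) e)) =
      c0 (hlf a ++ hlf b ++ hlf c ++ hlf d ++ hlf e) := by
  rw [← fun_c0]
  have h := Eqv.mul (Eqv.mul (Eqv.mul (Eqv.mul (eqv_Tw M a) (eqv_Tw M b)) (eqv_Tw M c))
    (eqv_Tw M d)) (eqv_Tw M e) 1 1
  simp only [one_mul, mul_one] at h
  rw [h, ← we_append, ← we_append, ← we_append, ← we_append, fun_we]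

/-- integer form of the constant term -/
def kap (p : Equiv.Perm (Fin 4)) : ℤ :=
  Matrix.det (Matrix.of fun a b : Fin 4 => (if a = b then (1 : ℤ) else 0)
    - (if p b = a then 1 else 0) + (if a = 0 ∧ b = 0 then 1 else 0))

theorem constCoeff_inv : PowerSeries.constantCoeff (R := ℂ)
    ((sU⁻¹ : (PowerSeries ℂ)ˣ) : PowerSeries ℂ) = 1 := by
  have h1 : ((sU : PowerSeries ℂ)) * ((sU⁻¹ : (PowerSeries ℂ)ˣ) : PowerSeries ℂ) = 1 :=
    Units.mul_inv _
  have h2 := congrArg (PowerSeries.constantCoeff (R := ℂ)) h1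
  rw [map_mul, sU_val] at h2
  simpa using h2

theorem constCoeff_zpow (k : ℤ) : PowerSeries.constantCoeff (R := ℂ)
    ((sU ^ k : (PowerSeries ℂ)ˣ) : PowerSeries ℂ) = 1 := by
  have h : Units.map (PowerSeries.constantCoeff (R := ℂ)).toMonoidHom sU = 1 := by
    ext
    simp [sU_val]
  have h3 : Units.map (PowerSeries.constantCoeff (R := ℂ)).toMonoidHom (sU ^ k) = 1 := by
    rw [map_zpow, h, one_zpow]
  exact congrArg Units.val h3

theorem constCoeff_Bur {n : ℕ} (w : Word n) (a b : Fin (n + 1)) :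
    PowerSeries.constantCoeff (R := ℂ) (Bur sU w a b) = if perm w b = a then 1 else 0 := by
  induction w generalizing a with
  | nil => simp [Bur, perm, Matrix.one_apply, eq_comm, apply_ite]
  | cons x w ih =>
    have h1 : ∀ c, PowerSeries.constantCoeff (R := ℂ) (bur sU x a c) =
        if c = adj x.1 a then 1 else 0 := by
      intro c
      have hy : PowerSeries.constantCoeff (R := ℂ) (yv sU x.2) = 1 := by
        unfold yv
        split_ifs
        · simp
        · rw [map_pow, constCoeff_inv, one_pow]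
      have hs : PowerSeries.constantCoeff (R := ℂ) ((sU : PowerSeries ℂ) ^ 2) = 1 := by
        rw [sU_val]; simp
      have hne : x.1.castSucc ≠ x.1.succ := by simp [Fin.ext_iff]
      rw [bur, Matrix.add_apply, Matrix.smul_apply, Matrix.vecMulVec_apply, map_add, smul_eq_mul,
        map_mul, map_mul, hy, one_mul, pv, qv, Pi.sub_apply, Pi.sub_apply, map_sub, map_sub,
        Pi.single_apply, Pi.single_apply, Pi.single_apply, Pi.single_apply, adj]
      by_cases ha : a = x.1.castSucc
      · subst ha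
        rw [Equiv.swap_apply_left]
        by_cases hc : c = x.1.castSucc
        · subst hc
          simp [hne, hs]
        · by_cases hc2 : c = x.1.succ
          · subst hc2
            simp [hne, hne.symm, hs]
          · simp [hne, hs, hc, hc2, Ne.symm hc]
      · by_cases ha2 : a = x.1.succ
        · subst ha2
          rw [Equiv.swap_apply_right]
          by_cases hc : c = x.1.castSucc
          · subst hc
            simp [hne, hne.symm, hs]
          · by_cases hc2 : c = x.1.succ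
            · subst hc2
              simp [hne, hne.symm, hs]
            · simp [hne, hne.symm, hs, hc, hc2, Ne.symm hc2]
        · rw [Equiv.swap_apply_of_ne_of_ne ha ha2]
          rw [if_neg ha, if_neg ha2]
          by_cases hca : c = a
          · subst hca
            simp
          · rw [if_neg hca, Matrix.one_apply_ne (Ne.symm hca)]
            simp
    rw [Bur, Matrix.mul_apply, map_sum]
    simp only [map_mul, h1, ih, ite_mul, one_mul, zero_mul]
    rw [Finset.sum_ite_eq' Finset.univ (adj x.1 a), if_pos (Finset.mem_univ _)]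
    have h2 : (perm w b = adj x.1 a) ↔ (perm (x :: w) b = a) := by
      rw [perm, Equiv.Perm.mul_apply]
      constructor
      · intro h; rw [h]; simp [adj]
      · intro h; rw [← h]; simp [adj]
    simp only [h2]

theorem c0_eq (w : Word 3) : c0 w = ((kap (perm w) : ℤ) : ℂ) := by
  rw [c0, conw, nab, map_mul, constCoeff_zpow, mul_one, cc, RingHom.map_det, kap]
  have h : (((Matrix.of fun a b : Fin 4 => (if a = b then (1 : ℤ) else 0)
    - (if perm w b = a then 1 else 0) + (if a = 0 ∧ b = 0 then 1 else 0)).det : ℤ) : ℂ) =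
    ((Int.castRingHom ℂ).mapMatrix (Matrix.of fun a b : Fin 4 => (if a = b then (1 : ℤ) else 0)
    - (if perm w b = a then 1 else 0) + (if a = 0 ∧ b = 0 then 1 else 0))).det := by
    rw [← RingHom.map_det]; rfl
  rw [h]
  congr 1
  refine Matrix.ext fun a b => ?_
  simp only [RingHom.mapMatrix_apply, Matrix.map_apply, Matrix.add_apply, Matrix.sub_apply,
    map_add, map_sub, constCoeff_Bur, Matrix.of_apply, e00, Matrix.vecMulVec_apply]
  congr 1
  · congr 1
    · simp [Matrix.one_apply, apply_ite]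
    · simp [apply_ite]
  · by_cases ha : a = 0 <;> by_cases hb : b = 0 <;> simp [ha, hb]

theorem kap_sum :
    kap (perm (hlf 0 ++ hlf 1 ++ hlf 2 ++ hlf 3 ++ hlf 4))
    - kap (perm (hlf 0 ++ hlf 1 ++ hlf 2 ++ hlf 4 ++ hlf 3))
    - kap (perm (hlf 0 ++ hlf 2 ++ hlf 3 ++ hlf 4 ++ hlf 1))
    + kap (perm (hlf 0 ++ hlf 2 ++ hlf 4 ++ hlf 3 ++ hlf 1))
    - kap (perm (hlf 2 ++ hlf 4 ++ hlf 0 ++ hlf 1 ++ hlf 3))
    + kap (perm (hlf 2 ++ hlf 4 ++ hlf 0 ++ hlf 3 ++ hlf 1))
    + kap (perm (hlf 2 ++ hlf 0 ++ hlf 4 ++ hlf 1 ++ hlf 3))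
    - kap (perm (hlf 2 ++ hlf 0 ++ hlf 4 ++ hlf 3 ++ hlf 1)) = 2 := by
  decide +kernel

theorem coeff5 (Y : PowerSeries ℂ) : PowerSeries.coeff (R := ℂ) 5 (zz ^ 5 * Y) =
    -32 * PowerSeries.constantCoeff (R := ℂ) Y := by
  obtain ⟨z', hz⟩ := X_dvd_zz
  have hz' : PowerSeries.constantCoeff (R := ℂ) z' = -2 := by
    have h1 : ((sU : PowerSeries ℂ)) * ((sU⁻¹ : (PowerSeries ℂ)ˣ) : PowerSeries ℂ) = 1 :=
      Units.mul_inv _
    have h2 : (1 + PowerSeries.X : PowerSeries ℂ) * zz = PowerSeries.X * (-2 - PowerSeries.X) := by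
      rw [zz, mul_sub, ← sU_val, h1, sU_val]
      ring
    rw [hz] at h2
    have h3 : (1 + PowerSeries.X : PowerSeries ℂ) * z' = -2 - PowerSeries.X := by
      apply mul_left_cancel₀ (PowerSeries.X_ne_zero : (PowerSeries.X : PowerSeries ℂ) ≠ 0)
      rw [← h2]; ring
    have h4 := congrArg (PowerSeries.constantCoeff (R := ℂ)) h3
    rw [map_mul, map_sub, map_neg, map_ofNat, map_add, map_one, PowerSeries.constantCoeff_X] at h4
    linear_combination h4
  have : zz ^ 5 * Y = PowerSeries.X ^ 5 * (z' ^ 5 * Y) := by rw [hz]; ring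
  rw [this]
  have h5 := PowerSeries.coeff_X_pow_mul (z' ^ 5 * Y) 5 0
  rw [zero_add] at h5
  rw [h5, PowerSeries.coeff_zero_eq_constantCoeff, map_mul, map_pow, hz']
  norm_num

theorem value5 (M : ℕ) (a b c d e : Fin 5) :
    PowerSeries.coeff (R := ℂ) 5
      (fun_ conw (Lw (M + 1) a * Lw (M + 1) b * Lw (M + 1) c * Lw (M + 1) d * Lw (M + 1) e)) =
      -32 * ((kap (perm (hlf a ++ hlf b ++ hlf c ++ hlf d ++ hlf e)) : ℤ) : ℂ) := by
  rw [mono5, coeff5, c0_prod, c0_eq]

theorem theElt_eq {A : Type*} [Ring A] (a b c d e : A) : theElt a b c d e =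
    a * b * c * d * e - a * b * c * e * d - a * c * d * e * b + a * c * e * d * b
    - c * e * a * b * d + c * e * a * d * b + c * a * e * b * d - c * a * e * d * b := by
  simp only [theElt, br]
  noncomm_ring

theorem value_elt (M : ℕ) :
    PowerSeries.coeff (R := ℂ) 5 (fun_ conw (theElt (Lw (M + 1) 0) (Lw (M + 1) 1) (Lw (M + 1) 2)
      (Lw (M + 1) 3) (Lw (M + 1) 4))) = -64 := by
  have h := congrArg (fun k : ℤ => (k : ℂ)) kap_sum
  push_cast at h
  rw [theElt_eq]
  simp only [map_sub, map_add, value5]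
  linear_combination (-32 : ℂ) * h

end Pool.Agent.V11208.FT
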