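import Pool.Agent.V11208.FT.Lin
import Pool.Agent.V11208.FT.Split2

/-!
# Words, singular words and functionals
-/

namespace Pool.Agent.V11208.FT

open MonoidAlgebra

section

variable {n : ℕ} {V : Type*} [AddCommGroup V] [Module ℂ V]

/-- word monoid -/
abbrev WM (n : ℕ) : Type := FreeMonoid (Letter n)

/-- the functional of a function of words -/
noncomputable def fun_ (f : Word n → V) : MonoidAlgebra ℂ (WM n) →ₗ[ℂ] V :=
  lin (fun u : WM n => f (FreeMonoid.toList u))

/-- the element of a word -/
noncomputable def we (w : Word n) : MonoidAlgebra ℂ (WM n) := of ℂ (WM n) (FreeMonoid.ofList w)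

theorem we_append (u v : Word n) : we (u ++ v) = we u * we v := by
  rw [we, we, we, FreeMonoid.ofList_append, map_mul]

theorem we_nil : we ([] : Word n) = 1 := by
  rw [we, FreeMonoid.ofList_nil, map_one]

theorem we_cons (x : Letter n) (u : Word n) : we (x :: u) = we [x] * we u := by
  rw [← we_append]; rfl

theorem fun_we (f : Word n → V) (w : Word n) : fun_ f (we w) = f w := by
  rw [fun_, we, lin_of, FreeMonoid.toList_ofList]

theorem of_eq_we (u : WM n) : of ℂ (WM n) u = we (FreeMonoid.toList u) := by
  rw [we, FreeMonoid.ofList_toList]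

/-- the element of a singular word -/
noncomputable def rh : SWord n → MonoidAlgebra ℂ (WM n)
  | [] => 1
  | (i, some e) :: S => we [(i, e)] * rh S
  | (i, none) :: S => (we [(i, true)] - we [(i, false)]) * rh S

theorem rh_append (S S' : SWord n) : rh (S ++ S') = rh S * rh S' := by
  induction S with
  | nil => simp [rh]
  | cons l S ih =>
    obtain ⟨i, e⟩ := l
    rcases e with _ | e <;> simp only [List.cons_append, rh, ih, mul_assoc]

theorem fun_rh_aux (f : Word n → V) (S : SWord n) (u : Word n) :
    fun_ f (we u * rh S) = res (fun w => f (u ++ w)) S := by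
  induction S generalizing u with
  | nil => simp [rh, res, fun_we]
  | cons l S ih =>
    obtain ⟨i, e⟩ := l
    rcases e with _ | e
    · simp only [rh, res]
      rw [sub_mul, mul_sub, map_sub, ← mul_assoc, ← mul_assoc, ← we_append, ← we_append, ih, ih]
      simp
    · simp only [rh, res]
      rw [← mul_assoc, ← we_append, ih]
      simp

theorem fun_rh (f : Word n → V) (S : SWord n) : fun_ f (rh S) = res f S := by
  have := fun_rh_aux f S []
  rw [we_nil, one_mul] at this
  simpa using this

/-- a word as a singular word -/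
def sw (w : Word n) : SWord n := w.map (fun l => (l.1, some l.2))

theorem rh_sw (w : Word n) : rh (sw w) = we w := by
  induction w with
  | nil => simp [sw, rh, we_nil]
  | cons l w ih =>
    have : sw (l :: w) = (l.1, some l.2) :: sw w := rfl
    rw [this, rh, ih, we_cons l w]

theorem dp_append (S S' : SWord n) : doublePoints (S ++ S') = doublePoints S + doublePoints S' := by
  simp [doublePoints, List.countP_append]

theorem dp_sw (w : Word n) : doublePoints (sw w) = 0 := by
  simp [doublePoints, sw, List.countP_eq_zero]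

/-- repeated singular word -/
def rep (S : SWord n) : ℕ → SWord n
  | 0 => []
  | k + 1 => rep S k ++ S

theorem rh_rep (S : SWord n) (k : ℕ) : rh (rep S k) = rh S ^ k := by
  induction k with
  | zero => simp [rep, rh]
  | succ k ih => rw [rep, rh_append, ih, pow_succ]

theorem dp_rep (S : SWord n) (k : ℕ) : doublePoints (rep S k) = k * doublePoints S := by
  induction k with
  | zero => simp [rep, doublePoints]
  | succ k ih => rw [rep, dp_append, ih]; ring

/-- inverse word -/
def winv : Word n → Word n
  | [] => []
  | l :: w => winv w ++ [(l.1, !l.2)]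

/-- The function does not see cancelling pairs. -/
def Canc (f : Word n → V) : Prop :=
  ∀ (u v : Word n) (i : Fin n) (e : Bool), f (u ++ (i, e) :: (i, !e) :: v) = f (u ++ v)

theorem eqv_cancel (f : Word n → V) (hf : Canc f) (i : Fin n) (e : Bool) :
    Eqv (fun_ f) (we [(i, e)] * we [(i, !e)]) 1 := by
  apply eqv_of_words
  intro u v
  rw [of_eq_we, of_eq_we, mul_one, ← we_append, ← we_append, ← we_append, ← we_append, fun_we,
    fun_we]
  simpa using hf (FreeMonoid.toList u) (FreeMonoid.toList v) i e

theorem eqv_winv (f : Word n → V) (hf : Canc f) (w : Word n) :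
    Eqv (fun_ f) (we w * we (winv w)) 1 := by
  induction w with
  | nil => simp only [winv, we_nil, mul_one]; exact Eqv.refl _ _
  | cons l w ih =>
    have h1 : we (l :: w) * we (winv (l :: w)) =
        we [l] * ((we w * we (winv w)) * we [(l.1, !l.2)]) := by
      rw [we_cons, winv, we_append]
      simp only [mul_assoc]
    rw [h1]
    have h2 : Eqv (fun_ f) (we [l] * ((we w * we (winv w)) * we [(l.1, !l.2)]))
        (we [l] * (1 * we [(l.1, !l.2)])) :=
      Eqv.mul (Eqv.refl _ _) (Eqv.mul ih (Eqv.refl _ _))
    rw [one_mul] at h2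
    exact h2.trans (eqv_cancel f hf l.1 l.2)

/-- conjugate of a full twist -/
def full (c : Word n) (i : Fin n) : Word n := c ++ ([(i, true), (i, true)] ++ winv c)

/-- conjugate of a half twist -/
def half (c : Word n) (i : Fin n) : Word n := c ++ ([(i, true)] ++ winv c)

/-- conjugate of a double point -/
def dbl (c : Word n) (i : Fin n) : SWord n := sw c ++ ([(i, none), (i, some true)] ++ sw (winv c))

theorem rh_dbl (c : Word n) (i : Fin n) : rh (dbl c i) =
    we c * ((we [(i, true)] - we [(i, false)]) * (we [(i, true)] * we (winv c))) := by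
  rw [dbl, rh_append, rh_append, rh_sw, rh_sw]
  simp only [rh, mul_one, mul_assoc]

theorem eqv_full (f : Word n → V) (hf : Canc f) (c : Word n) (i : Fin n) :
    Eqv (fun_ f) (we (full c i) - 1) (rh (dbl c i)) := by
  rw [rh_dbl, sub_mul, mul_sub]
  apply Eqv.sub
  · have : we (full c i) = we c * (we [(i, true)] * (we [(i, true)] * we (winv c))) := by
      rw [full, we_append, we_append, we_cons]
      simp only [mul_assoc]
    rw [this]
    exact Eqv.refl _ _
  · have h1 : Eqv (fun_ f) (we c * (we [(i, false)] * (we [(i, true)] * we (winv c))))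
        (we c * (1 * we (winv c))) := by
      rw [← mul_assoc (we [(i, false)])]
      exact Eqv.mul (Eqv.refl _ _) (Eqv.mul (eqv_cancel f hf i false) (Eqv.refl _ _))
    rw [one_mul] at h1
    exact (h1.trans (eqv_winv f hf c)).symm

end

section ev

variable {m n : ℕ}

theorem ev_canc (v : Link m → ℂ) (ell : Fin (n + 1) → Fin m) : Canc (ev v ell) := by
  intro u w i e
  have hp : perm (u ++ (i, e) :: (i, !e) :: w) = perm (u ++ w) := perm_cancel u w i e (!e)
  by_cases h : Closes (u ++ w) ell
  · have h' : Closes (u ++ (i, e) :: (i, !e) :: w) ell := (closes_iff ell _ _ hp).mpr h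
    rw [ev, ev, dif_pos h, dif_pos h']
    exact congrArg v (Quot.sound (Move.cancel n u w i e ell h' h))
  · have h' : ¬ Closes (u ++ (i, e) :: (i, !e) :: w) ell :=
      fun h' => h ((closes_iff ell _ _ hp).mp h')
    rw [ev, ev, dif_neg h, dif_neg h']

theorem ev_far (v : Link m → ℂ) (ell : Fin (n + 1) → Fin m) (u w : Word n) (i j : Fin n)
    (e f : Bool) (hij : (i : ℕ) + 1 < j) :
    ev v ell (u ++ (i, e) :: (j, f) :: w) = ev v ell (u ++ (j, f) :: (i, e) :: w) := by
  have hp := perm_far u w i j e f hij
  by_cases h : Closes (u ++ (i, e) :: (j, f) :: w) ell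
  · have h' : Closes (u ++ (j, f) :: (i, e) :: w) ell := (closes_iff ell _ _ hp).mp h
    rw [ev, ev, dif_pos h, dif_pos h']
    exact congrArg v (Quot.sound (Move.far n u w i j e f hij ell h h'))
  · have h' : ¬ Closes (u ++ (j, f) :: (i, e) :: w) ell :=
      fun h' => h ((closes_iff ell _ _ hp).mpr h')
    rw [ev, ev, dif_neg h, dif_neg h']

theorem ev_conj (v : Link m → ℂ) (ell : Fin (n + 1) → Fin m) (u w : Word n)
    (hu : perm u = 1) : ev v ell (u ++ w) = ev v ell (w ++ u) := by
  have hp : perm (u ++ w) = perm (w ++ u) := by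
    rw [perm_append, perm_append, hu, one_mul, mul_one]
  have hell : ell ∘ perm u = ell := by rw [hu]; rfl
  by_cases h : Closes (u ++ w) ell
  · have h' : Closes (w ++ u) ell := (closes_iff ell _ _ hp).mp h
    rw [ev, ev, dif_pos h, dif_pos h']
    have h'' : Closes (w ++ u) (ell ∘ perm u) := by rw [hell]; exact h'
    have h1 := Quot.sound (Move.conj n u w ell h h'')
    have h2 : (⟨n, w ++ u, ell ∘ perm u, h''⟩ : LBraid m) = ⟨n, w ++ u, ell, h'⟩ := by
      congr 1
    rw [h2] at h1
    exact congrArg v h1
  · have h' : ¬ Closes (w ++ u) ell :=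
      fun h' => h ((closes_iff ell _ _ hp).mpr h')
    rw [ev, ev, dif_neg h, dif_neg h']

/-- High powers vanish. -/
theorem ev_nilp (v : Link m → ℂ) (N : ℕ) (hv : FiniteTypeLE N v) (ell : Fin (n + 1) → Fin m)
    (c : Word n) (i : Fin n) (M : ℕ) (hM : N < M) :
    Eqv (fun_ (ev v ell)) ((we (full c i) - 1) ^ M) 0 := by
  apply ((eqv_full (ev v ell) (ev_canc v ell) c i).pow M).trans
  apply eqv_of_words
  intro u w
  rw [mul_zero, zero_mul, map_zero, of_eq_we, of_eq_we, ← rh_sw, ← rh_sw (FreeMonoid.toList w),
    ← rh_rep, ← rh_append, ← rh_append, fun_rh]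
  apply hv
  rw [dp_append, dp_append, dp_sw, dp_sw, dp_rep]
  have : doublePoints (dbl c i) = 1 := by
    rw [dbl, dp_append, dp_append, dp_sw, dp_sw]
    rfl
  rw [this]
  omega

end ev

end Pool.Agent.V11208.FT
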